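import Pool.Agent.CW6.GC

/-!
# CW, module FCT
-/

set_option autoImplicit false
set_option linter.unusedSectionVars false
set_option linter.unusedVariables false

namespace Pool.Agent.CW

open Set Pool.Agent.Helper5 Pool.Agent.Helper5.DU Pool.Agent.Helper6.Str
  Pool.Agent.Helper79.VC Pool.Agent.Helper97.VC Pool.Agent.Helper97.MD Pool.Agent.Helper6.VC
  Pool.Agent.Helper97.LO

open scoped Classical

variable {L : FirstOrder.Language.{0, 0}} [∀ n, IsEmpty (L.Functions n)]
  [∀ n, Countable (L.Relations n)] {M : Type} {K : Set (L.Structure ℕ)} {δ : Ordinal.{0}}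
  {S : L.Structure M}

private theorem FCT_inf (h : VSt K δ S) {N : Type} (T : L.Structure N) (X : Set N)
    (hX : BFR T S X univ δ ∅) : X.Infinite := by
  intro hfin
  have hinf : Infinite M := h.infinite
  have hle : (0 : Ordinal.{0}) + ((X.ncard + 1 : ℕ) : Ordinal.{0}) ≤ δ := by
    rw [zero_add]
    exact (Ordinal.natCast_lt_omega0 _).le.trans
      ((le_self_add (a := Ordinal.omega0) (b := Ordinal.omega0)).trans h.om)
  have h1 : BFR T S X univ (0 + ((X.ncard + 1 : ℕ) : Ordinal.{0})) ∅ := hX.mono hle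
  let v : Fin (X.ncard + 1) → M := fun i => Infinite.natEmbedding M i
  obtain ⟨x, hxX, hx⟩ := BFR.back_many _ h1 v fun _ => mem_univ _
  have hinj : Function.Injective x := by
    intro i j hij
    have := (hx.atEq.1 (x i, v i) (Or.inr ⟨i, rfl⟩) (x j, v j) (Or.inr ⟨j, rfl⟩)).mp hij
    have h2 := (Infinite.natEmbedding M).injective this
    exact Fin.ext h2
  have h3 : (range x).ncard ≤ X.ncard := by
    refine Set.ncard_le_ncard ?_ hfin
    rintro _ ⟨i, rfl⟩
    exact hxX i
  have h4 : (range x).ncard = X.ncard + 1 := by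
    rw [← image_univ, Set.ncard_image_of_injective _ hinj, Set.ncard_univ]
    simp
  omega

/-- **Coding**, with tuples. -/
theorem false_of_code_tuple (h : VSt K δ S) {N : Type} (T : L.Structure N)
    (X : (ℕ → Bool) → Set N) (hc : ∀ f, (X f).Countable)
    (hX : ∀ f, BFR T S (X f) univ δ ∅) {m : ℕ} (c : (ℕ → Bool) → Fin m → N)
    (hcX : ∀ f i, c f i ∈ X f) {γ : Ordinal.{0}} (hγ : γ < om1)
    (H : ∀ f g, BFR T T (X f) (X g) γ (range fun i => (c f i, c g i)) → f = g) :
    False := by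
  have he : ∀ f, Nonempty (ℕ ≃ X f) := by
    intro f
    have h1 : Countable (X f) := (hc f).to_subtype
    have h2 : Infinite (X f) := (FCT_inf h T (X f) (hX f)).to_subtype
    exact nonempty_equiv_of_countable
  let e : ∀ f, ℕ ≃ X f := fun f => (he f).some
  let φ : (ℕ → Bool) → ℕ → N := fun f k => (e f k).1
  have hφ : ∀ f, Function.Injective (φ f) := fun f =>
    Subtype.val_injective.comp (e f).injective
  have hφr : ∀ f, range (φ f) = X f := by
    intro f
    ext x
    constructor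
    · rintro ⟨k, rfl⟩
      exact (e f k).2
    · intro hx
      exact ⟨(e f).symm ⟨x, hx⟩, by simp [φ]⟩
  have hpl : ∀ (f : ℕ → Bool) (γ : Ordinal.{0}),
      BFR (pl T (φ f)) T univ (X f) γ {a | a.2 = φ f a.1} := by
    intro f γ
    have h1 := BFR_pl (S := T) (f := φ f) (hφ f) γ (p := {a | a.2 = φ f a.1}) fun a ha => ha
    rwa [hφr f] at h1
  obtain ⟨S1, hS1, h1⟩ := h.lev δ h.lt
  have hK : ∀ f, pl T (φ f) ∈ K := by
    intro f
    refine h.clos S1 hS1 _ ?_
    have h2 : BFR (pl T (φ f)) S univ univ δ ∅ :=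
      (hpl f δ).trans (hX f) fun a ha => absurd ha (notMem_empty a)
    have h3 : BFR (pl T (φ f)) S1 univ univ δ ∅ :=
      h2.trans h1 fun a ha => absurd ha (notMem_empty a)
    exact h3.symm fun a ha => absurd ha (notMem_empty a)
  obtain ⟨ρ, hρ⟩ := h.scat γ hγ m
  let t : (ℕ → Bool) → Fin m → ℕ := fun f i => (e f).symm ⟨c f i, hcX f i⟩
  have ht : ∀ f i, φ f (t f i) = c f i := by
    intro f i
    simp [φ, t]
  have hm : ∀ f, ∃ k, BFR (pl T (φ f)) (ρ k).1 univ univ γ
      (range fun i => (t f i, (ρ k).2 i)) := by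
    intro f
    obtain ⟨k, -, hk⟩ := hρ _ (hK f) (t f)
    exact ⟨k, hk⟩
  choose g hg using hm
  refine not_injective_cantor g ?_
  intro f f' hff
  apply H
  have h2 : BFR T (ρ (g f)).1 (X f) univ γ (range fun i => (c f i, (ρ (g f)).2 i)) := by
    have h3 : BFR T (pl T (φ f)) (X f) univ γ {a | a.1 = φ f a.2} :=
      (hpl f γ).symm fun a ha => ha
    refine h3.trans (hg f) ?_
    rintro _ ⟨i, rfl⟩
    exact ⟨t f i, (ht f i).symm, ⟨i, rfl⟩⟩
  have h4 : BFR (ρ (g f)).1 T univ (X f') γ (range fun i => ((ρ (g f)).2 i, c f' i)) := by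
    rw [hff]
    have h5 : BFR (ρ (g f')).1 (pl T (φ f')) univ univ γ
        (range fun i => ((ρ (g f')).2 i, t f' i)) := by
      refine (hg f').symm ?_
      rintro _ ⟨i, rfl⟩
      exact ⟨i, rfl⟩
    refine h5.trans (hpl f' γ) ?_
    rintro _ ⟨i, rfl⟩
    exact ⟨t f' i, ⟨i, rfl⟩, (ht f' i).symm⟩
  refine h2.trans h4 ?_
  rintro _ ⟨i, rfl⟩
  exact ⟨(ρ (g f)).2 i, ⟨i, rfl⟩, ⟨i, rfl⟩⟩

end Pool.Agent.CW
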