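import Pool.Agent.CW.GB
import Pool.Agent.CW.Defs6

/-!
# Clique-width, closures and normal forms

Merged file (to shorten the import chain): contents, unchanged, of
`Pool.Agent.CW6.CLB`, `Pool.Agent.CW6.NFa`, `Pool.Agent.CW6.NFb`, `Pool.Agent.CW6.NFc`, `Pool.Agent.CW6.NFe`, `Pool.Agent.CW6.NFd`.
-/

/-! ### formerly `Pool.Agent.CW6.CLB` -/

section

/-!
# CW, module CLB
-/

set_option autoImplicit false
set_option linter.unusedSectionVars false
set_option linter.unusedVariables false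

namespace Pool.Agent.CW

open Set Pool.Agent.Helper5 Pool.Agent.Helper5.DU Pool.Agent.Helper6.Str
  Pool.Agent.Helper79.VC Pool.Agent.Helper97.VC Pool.Agent.Helper97.MD Pool.Agent.Helper6.VC
  Pool.Agent.Helper97.LO

open scoped Classical

variable {L : FirstOrder.Language.{0, 0}} [∀ n, IsEmpty (L.Functions n)] {M N : Type}
  {S : L.Structure M} {T : L.Structure N} {V : Set N} {B X Y U : Set M}
  {P Q F G F₀ : Finset M} {P' Q' : Finset N} {γ η ζ μ lam : Ordinal.{0}} {k : ℕ}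

theorem Mt.restrict {p : Set (M × N)} {F' : Finset N} (h : Mt p F F') (hP : P ⊆ F) :
    ∃ P'' ⊆ F', Mt p P P'' := by
  refine ⟨F'.filter fun y => ∃ x ∈ P, (x, y) ∈ p, Finset.filter_subset _ _, ?_, ?_⟩
  · intro x hx
    obtain ⟨y, hy, hxy⟩ := h.1 x (hP hx)
    exact ⟨y, Finset.mem_filter.2 ⟨hy, x, hx, hxy⟩, hxy⟩
  · intro y hy
    exact (Finset.mem_filter.1 hy).2

theorem Mt.restrict' {p : Set (M × N)} {F' : Finset N} (h : Mt p F F') (hP : P' ⊆ F') :
    ∃ P'' ⊆ F, Mt p P'' P' := by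
  refine ⟨F.filter fun x => ∃ y ∈ P', (x, y) ∈ p, Finset.filter_subset _ _, ?_, ?_⟩
  · intro x hx
    exact (Finset.mem_filter.1 hx).2
  · intro y hy
    obtain ⟨x, hx, hxy⟩ := h.2 y (hP hy)
    exact ⟨x, Finset.mem_filter.2 ⟨hx, y, hy, hxy⟩, hxy⟩

/-- one extension by two finite sets -/
theorem forth2 {p : Set (M × N)} (h : BFR S T U V (γ + Ordinal.omega0) p)
    (hp : p.Finite) (hP : (P : Set M) ⊆ U) (hQ : (Q : Set M) ⊆ U) :
    ∃ (p' : Set (M × N)) (P'' Q'' : Finset N), p ⊆ p' ∧ p'.Finite ∧ (P'' : Set N) ⊆ V ∧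
      (Q'' : Set N) ⊆ V ∧ Mt p' P P'' ∧ Mt p' Q Q'' ∧ BFR S T U V γ p' := by
  obtain ⟨q, F', hqf, hF'V, hqm, -, hb⟩ := forth_fin h (P ∪ Q) (by
    rw [Finset.coe_union]
    exact union_subset hP hQ)
  obtain ⟨P'', hP'', hP2⟩ := hqm.restrict (P := P) Finset.subset_union_left
  obtain ⟨Q'', hQ'', hQ2⟩ := hqm.restrict (P := Q) Finset.subset_union_right
  exact ⟨p ∪ q, P'', Q'', subset_union_left, hp.union hqf,
    (Finset.coe_subset.2 hP'').trans hF'V, (Finset.coe_subset.2 hQ'').trans hF'V,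
    hP2.mono subset_union_right, hQ2.mono subset_union_right, hb⟩

theorem back2 {p : Set (M × N)} (h : BFR S T U V (γ + Ordinal.omega0) p)
    (hp : p.Finite) (hP : (P' : Set N) ⊆ V) (hQ : (Q' : Set N) ⊆ V) :
    ∃ (p' : Set (M × N)) (P'' Q'' : Finset M), p ⊆ p' ∧ p'.Finite ∧ (P'' : Set M) ⊆ U ∧
      (Q'' : Set M) ⊆ U ∧ Mt p' P'' P' ∧ Mt p' Q'' Q' ∧ BFR S T U V γ p' := by
  obtain ⟨q, F', hqf, hF'V, hqm, -, hb⟩ := back_fin h (P' ∪ Q') (by
    rw [Finset.coe_union]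
    exact union_subset hP hQ)
  obtain ⟨P'', hP'', hP2⟩ := hqm.restrict' (P' := P') Finset.subset_union_left
  obtain ⟨Q'', hQ'', hQ2⟩ := hqm.restrict' (P' := Q') Finset.subset_union_right
  exact ⟨p ∪ q, P'', Q'', subset_union_left, hp.union hqf,
    (Finset.coe_subset.2 hP'').trans hF'V, (Finset.coe_subset.2 hQ'').trans hF'V,
    hP2.mono subset_union_right, hQ2.mono subset_union_right, hb⟩

theorem DfAt.mono {F' : Finset M} {η' : Ordinal.{0}} (h : DfAt S F η X) (hF : F ⊆ F')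
    (hη : η ≤ η') : DfAt S F' η' X :=
  fun c c' hc => h c c' ((BFR.anti (insert_subset_insert (image_mono (Finset.coe_subset.2 hF)))
    hc).mono hη)

theorem DfAt.inter (h : DfAt S F η X) (h' : DfAt S F η Y) : DfAt S F η (X ∩ Y) := by
  intro c c' hc
  rw [mem_inter_iff, mem_inter_iff, h c c' hc, h' c c' hc]

theorem DfAt.union (h : DfAt S F η X) (h' : DfAt S F η Y) : DfAt S F η (X ∪ Y) := by
  intro c c' hc
  rw [mem_union, mem_union, h c c' hc, h' c c' hc]

theorem DfAt.diff (h : DfAt S F η X) (h' : DfAt S F η Y) : DfAt S F η (X \ Y) := by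
  intro c c' hc
  rw [mem_sdiff, mem_sdiff, h c c' hc, h' c c' hc]

theorem dfAt_empty (S : L.Structure M) (F : Finset M) (η : Ordinal.{0}) : DfAt S F η ∅ := by
  intro c c' _
  simp

theorem dfAt_bs (S : L.Structure M) (P Q : Finset M) :
    DfAt S (P ∪ Q) Ordinal.omega0 (Bs (bt S) univ P Q) := by
  intro c c' h
  refine mem_bs_iff (mem_univ c) (mem_univ c') h (mt_dg P ?_) (mt_dg Q ?_)
  · refine image_mono ?_
    rw [Finset.coe_union]
    exact subset_union_left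
  · refine image_mono ?_
    rw [Finset.coe_union]
    exact subset_union_right

theorem DfAt.dfb (h : DfAt S F η X) (hη : η < om1) : Dfb S X := ⟨F, η, hη, h⟩

theorem DfAt.mem_iff {q : Set (M × M)} (h : DfAt S F η X) (hη : η ≤ γ)
    (hb : BFR S S univ univ γ (q ∪ dg (F : Set M))) {a : M × M} (ha : a ∈ q) :
    a.1 ∈ X ↔ a.2 ∈ X := by
  refine h a.1 a.2 ((BFR.anti ?_ hb).mono hη)
  exact insert_subset (Or.inl ha) subset_union_right

private theorem CLB_dg (hB : Clo S univ γ B) {H : Set M} (hH : H.Finite) (hHB : H ⊆ B) :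
    BFR S S univ B γ (dg H) := by
  have h := hB.bfr hH (by rwa [inter_univ])
  rwa [inter_univ] at h

theorem clo_bfr_iff {p : Set (N × M)} (hB : Clo S univ γ B) (hp : p.Finite)
    (hpB : ∀ a ∈ p, a.2 ∈ B) : BFR T S V univ γ p ↔ BFR T S V B γ p := by
  constructor
  · intro h
    have h1 := hB.rel γ le_rfl p hp (fun a ha => ⟨hpB a ha, mem_univ _⟩) h
    rwa [inter_univ] at h1
  · intro h
    have h1 := CLB_dg hB (hp.image Prod.snd) (by
      rintro _ ⟨a, ha, rfl⟩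
      exact hpB a ha)
    have h2 : BFR S S B univ γ (dg (Prod.snd '' p)) := by
      refine h1.symm ?_
      rintro _ ⟨a, ha, rfl⟩
      exact ⟨a, ha, rfl⟩
    refine h.trans h2 fun a ha => ⟨a.2, ha, a.2, ⟨a, ha, rfl⟩, rfl⟩

theorem clo_dg (hB : Clo S univ γ B) {H : Set M} (hH : H.Finite) (hHB : H ⊆ B) :
    BFR S S univ B γ (dg H) := CLB_dg hB hH hHB

theorem move_B (hlam : Gd lam) (hB : ∀ γ < lam, Clo S univ γ B) (hγ : γ < lam)
    (F₀ F : Finset M) (h₀ : (F₀ : Set M) ⊆ B) :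
    ∃ (q : Set (M × M)) (F' : Finset M), q.Finite ∧ (F' : Set M) ⊆ B ∧ Mt q F F' ∧
      (∀ a ∈ q, a.1 ∈ F ∧ a.2 ∈ F') ∧ BFR S S univ univ γ (q ∪ dg (F₀ : Set M)) := by
  have hγ' : γ + Ordinal.omega0 < lam := hlam.add _ hγ _ hlam.om
  obtain ⟨q, F', hqf, hF', hqm, hqmem, hb⟩ :=
    forth_fin (CLB_dg (hB _ hγ') F₀.finite_toSet h₀) F (subset_univ _)
  refine ⟨q, F', hqf, hF', hqm, hqmem, ?_⟩
  rw [union_comm]
  refine (clo_bfr_iff (hB _ hγ) ((F₀.finite_toSet.image _).union hqf) ?_).2 hb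
  rintro a (⟨x, hx, rfl⟩ | ha)
  · exact h₀ hx
  · exact hF' (hqmem a ha).2

theorem bs_B (hB : Clo S univ Ordinal.omega0 B) (hP : (P : Set M) ⊆ B)
    (hQ : (Q : Set M) ⊆ B) : Bs (bt S) B P Q = Bs (bt S) univ P Q ∩ B := by
  ext x
  constructor
  · intro hx
    have hxB : x ∈ B := bs_subset hP hx
    refine ⟨?_, hxB⟩
    refine (mem_bs_iff (mem_univ x) hxB (p := dg ((P : Set M) ∪ Q)) ?_ (mt_dg P ?_)
      (mt_dg Q ?_)).2 hx
    · refine BFR.anti ?_ (CLB_dg hB (H := insert x ((P : Set M) ∪ Q))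
        ((P.finite_toSet.union Q.finite_toSet).insert x) (insert_subset hxB (union_subset hP hQ)))
      rintro a (rfl | ⟨y, hy, rfl⟩)
      · exact ⟨x, mem_insert _ _, rfl⟩
      · exact ⟨y, mem_insert_of_mem _ hy, rfl⟩
    · exact image_mono subset_union_left
    · exact image_mono subset_union_right
  · rintro ⟨hx, hxB⟩
    refine (mem_bs_iff (mem_univ x) hxB (p := dg ((P : Set M) ∪ Q)) ?_ (mt_dg P ?_)
      (mt_dg Q ?_)).1 hx
    · refine BFR.anti ?_ (CLB_dg hB (H := insert x ((P : Set M) ∪ Q))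
        ((P.finite_toSet.union Q.finite_toSet).insert x) (insert_subset hxB (union_subset hP hQ)))
      rintro a (rfl | ⟨y, hy, rfl⟩)
      · exact ⟨x, mem_insert _ _, rfl⟩
      · exact ⟨y, mem_insert_of_mem _ hy, rfl⟩
    · exact image_mono subset_union_left
    · exact image_mono subset_union_right

theorem ok_B (hB : Clo S univ (Ordinal.omega0 + 1) B) (hP : (P : Set M) ⊆ B)
    (hQ : (Q : Set M) ⊆ B) : Ok (bt S) B P Q ↔ Ok (bt S) univ P Q := by
  have h := CLB_dg hB (H := (P : Set M) ∪ Q) (P.finite_toSet.union Q.finite_toSet)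
    (union_subset hP hQ)
  exact (ok_iff h (mt_dg P (image_mono subset_union_left)) (mt_dg Q (image_mono subset_union_right))
    (subset_univ _) (subset_univ _) hP hQ).symm

theorem lv_B (hL : Ar2 L) (hlam : Gd lam) (hB : ∀ γ < lam, Clo S univ γ B) (hζ : ζ < lam)
    (hP : (P : Set M) ⊆ B) (hQ : (Q : Set M) ⊆ B) (hOk : Ok (bt S) univ P Q) :
    Lv S B (Bs (bt S) B P Q) ζ ↔ Lv S univ (Bs (bt S) univ P Q) ζ := by
  have hup : up ζ < lam := lt_of_le_of_lt (le_self_add.trans le_self_add) (gd_up hlam hζ)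
  have h1 : Ordinal.omega0 + 1 < lam :=
    hlam.add _ hlam.om _ (Ordinal.one_lt_omega0.trans hlam.om)
  have h := CLB_dg (hB _ hup) (H := (P : Set M) ∪ Q) (P.finite_toSet.union Q.finite_toSet)
    (union_subset hP hQ)
  exact (lv_iff hL (hζ.trans hlam.lt) h hOk ((ok_B (hB _ h1) hP hQ).2 hOk)
    (mt_dg P (image_mono subset_union_left)) (mt_dg Q (image_mono subset_union_right))).symm

theorem rk_B_le (τ : M → M → Set (L.Relations 2) × Set (L.Relations 2)) (X B : Set M) :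
    rk τ B (X ∩ B) ≤ rk τ univ X := by
  refine iSup_le fun P => iSup_le fun hP => iSup_le fun Q => iSup_le fun hQ => ?_
  refine rho_le_rk (fun x hx => (hP hx).1) (fun y hy => ⟨mem_univ y, fun hyX => ?_⟩)
  exact (hQ hy).2 ⟨hyX, (hQ hy).1⟩

theorem exists_refs_B (hlam : Gd lam) (hB : ∀ γ < lam, Clo S univ γ B)
    (hF : (F : Set M) ⊆ B) (hη : η < lam) (hX : DfAt S F η X)
    (hr : rk (bt S) univ X ≠ ⊤) : ∃ P Q : Finset M, (P : Set M) ⊆ B ∧ (Q : Set M) ⊆ B ∧
      Refs (bt S) univ X P Q := by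
  obtain ⟨P₀, Q₀, hR⟩ := exists_refs hr
  obtain ⟨q, F', hqf, hF', hqm, hqmem, hb⟩ := move_B hlam hB hη F (P₀ ∪ Q₀) hF
  obtain ⟨P, hP, hPm⟩ := hqm.restrict (P := P₀) Finset.subset_union_left
  obtain ⟨Q, hQ, hQm⟩ := hqm.restrict (P := Q₀) Finset.subset_union_right
  refine ⟨P, Q, (Finset.coe_subset.2 hP).trans hF', (Finset.coe_subset.2 hQ).trans hF', ?_, ?_, ?_⟩
  · intro y hy
    obtain ⟨x, hx, hxy⟩ := hPm.2 y hy
    exact (hX.mem_iff le_rfl hb hxy).1 (hR.left hx)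
  · intro y hy
    obtain ⟨x, hx, hxy⟩ := hQm.2 y hy
    exact ⟨mem_univ y, fun hyX => (hR.right hx).2 ((hX.mem_iff le_rfl hb hxy).2 hyX)⟩
  · rw [hR.eq, rho_of_atEq hb.atEq (hPm.mono subset_union_left) (hQm.mono subset_union_left)]

theorem exists_rc_B (hlam : Gd lam) (hB : ∀ γ < lam, Clo S univ γ B)
    (hF : (F : Set M) ⊆ B) (hη : η < lam) (hX : DfAt S F η X)
    (hr : rk (bt S) univ X ≠ ⊤) : ∃ G : Finset M, (G : Set M) ⊆ B ∧ RC S univ X G := by
  obtain ⟨G₀, hG⟩ := exists_rc hr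
  have h2 : η + 2 < lam := hlam.add _ hη _ ((Ordinal.natCast_lt_omega0 2).trans hlam.om)
  obtain ⟨q, G, hqf, hGB, hqm, hqmem, hb⟩ := move_B hlam hB h2 F G₀ hF
  refine ⟨G, hGB, ?_⟩
  refine rc_of (κ := η) (fun x _ x' _ hh => ?_) (subset_univ _) (subset_univ _) (subset_univ _) hb
    (hqm.mono subset_union_left) hG
  exact hX x x' (BFR.anti (insert_subset_insert subset_union_right) hh)

theorem rc_B (hG : RC S univ X G) (hGB : (G : Set M) ⊆ B) : RC S B (X ∩ B) G := by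
  refine ⟨fun g hg => ⟨hGB hg, fun h => (hG.1 hg).2 h.1⟩, fun y hy hyX => ?_⟩
  obtain ⟨g, hg, hgy⟩ := hG.2 y (mem_univ y) fun h => hyX ⟨h, hy⟩
  exact ⟨g, hg, fun x hx => hgy x hx.1⟩

theorem covS_B (hL : Ar2 L) (hlam : Gd lam) (hB : ∀ γ < lam, Clo S univ γ B)
    (hF : (F : Set M) ⊆ B) (hη : η < lam) (hX : DfAt S F η X) (hζ : ζ < lam) :
    CovS S B (X ∩ B) k ζ ↔ CovS S univ X k ζ := by
  have hup : up ζ + Ordinal.omega0 < lam := lt_of_le_of_lt le_self_add (gd_up hlam hζ)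
  have hζ1 : ζ < om1 := hζ.trans hlam.lt
  have key : ∀ F₁ : Finset M, (F₁ : Set M) ⊆ B → (Cov S univ F₁ k ζ ↔ Cov S B F₁ k ζ) := by
    intro F₁ hF₁
    exact cov_iff hL hζ1 (CLB_dg (hB _ hup) F₁.finite_toSet hF₁) (subset_univ _) hF₁
      (mt_dg F₁ Subset.rfl)
  constructor
  · intro h F₁ hF₁
    have hμ : max η (up ζ + Ordinal.omega0) < lam := max_lt hη hup
    obtain ⟨q, F₂, hqf, hF₂, hqm, hqmem, hb⟩ := move_B hlam hB hμ F F₁ hF
    have hF₂X : (F₂ : Set M) ⊆ X ∩ B := by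
      intro y hy
      obtain ⟨x, hx, hxy⟩ := hqm.2 y hy
      exact ⟨(hX.mem_iff (le_max_left _ _) hb hxy).1 (hF₁ hx), hF₂ hy⟩
    have h1 := (key F₂ hF₂).2 (h F₂ hF₂X)
    exact (cov_iff hL hζ1 (hb.mono (le_max_right _ _)) (subset_univ _) (subset_univ _)
      (hqm.mono subset_union_left)).2 h1
  · intro h F₁ hF₁
    exact (key F₁ (hF₁.trans inter_subset_right)).1 (h F₁ (hF₁.trans inter_subset_left))

theorem jd_B (hL : Ar2 L) (hlam : Gd lam) (hB : ∀ γ < lam, Clo S univ γ B)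
    (hF : (F : Set M) ⊆ B) (hη : η < lam) (hX : DfAt S F η X) (hμ : μ ≤ lam) :
    Jd S B μ (X ∩ B) ↔ Jd S univ μ X := by
  constructor
  · rintro ⟨ζ', hζ', k, hk⟩
    exact ⟨ζ', hζ', k, (covS_B hL hlam hB hF hη hX (hζ'.trans_le hμ)).1 hk⟩
  · rintro ⟨ζ', hζ', k, hk⟩
    exact ⟨ζ', hζ', k, (covS_B hL hlam hB hF hη hX (hζ'.trans_le hμ)).2 hk⟩

/-- `X ∩ B` is equivalent to `X` -/
theorem piece_B (hlam : Gd lam) (hB : ∀ γ < lam, Clo S univ γ B) (hF : (F : Set M) ⊆ B)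
    (hη : η < lam) (hX : DfAt S F η X) (hζ : ζ < lam) {H : Set M} (hH : H.Finite)
    (hHB : H ⊆ B) : BFR S S X (X ∩ B) ζ (dg H) := by
  have hlt : η + ζ < lam := hlam.add _ hη _ hζ
  have h1 : BFR S S univ B (η + ζ) (dg ((F : Set M) ∪ H)) :=
    CLB_dg (hB _ hlt) (F.finite_toSet.union hH) (union_subset hF hHB)
  refine BFR.anti (image_mono (subset_union_right (s := (F : Set M)))) (BFR.restr (subset_univ X)
    inter_subset_right η ζ (fun x _ y hy hh => ?_) h1)
  have h2 := (clo_bfr_iff (hB _ hη) (((F.finite_toSet.union hH).image _).insert _) (by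
    rintro a (rfl | ⟨z, hz, rfl⟩)
    · exact hy
    · exact union_subset hF hHB hz)).2 hh
  rw [hX x y (BFR.anti (insert_subset_insert (image_mono subset_union_left)) h2)]
  exact ⟨fun h => ⟨h, hy⟩, fun h => h.1⟩

theorem jd_bs_iff (hL : Ar2 L) (hμ : Gd μ) {p : Set (M × N)} (h : BFR S T U V μ p)
    (hP : Mt p P P') (hQ : Mt p Q Q') (hPU : (P : Set M) ⊆ U) (hPV : (P' : Set N) ⊆ V) :
    Jd S U μ (Bs (bt S) U P Q) ↔ Jd T V μ (Bs (bt T) V P' Q') := by
  refine jd_iff hL hμ (bs_subset hPU) (bs_subset hPV) (κ := Ordinal.omega0) hμ.om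
    (fun x hx x' hx' hh => mem_bs_iff hx hx' hh hP hQ) (fun γ hγ => h.mono hγ.le)

private theorem CLB_covS {M N : Type} {S : L.Structure M} {T : L.Structure N} {U : Set M}
    {V : Set N} {p : Set (M × N)} (hL : Ar2 L) (hζ : ζ < om1) {X : Set M} {X' : Set N}
    (hXU : X ⊆ U) (hXV : X' ⊆ V) {κ : Ordinal.{0}} (hκ : up ζ + Ordinal.omega0 ≤ κ)
    (H : ∀ x ∈ U, ∀ x' ∈ V, BFR S T U V κ (insert (x, x') p) → (x ∈ X ↔ x' ∈ X'))
    (h : BFR S T U V (κ + Ordinal.omega0) p) (hc : CovS S U X k ζ) : CovS T V X' k ζ := by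
  intro F' hF'
  obtain ⟨q, F, hqf, hFU, hqF, hqm, hb⟩ := back_fin h F' (hF'.trans hXV)
  have hFX : (F : Set M) ⊆ X := by
    intro x hx
    obtain ⟨y, hy, hxy⟩ := hqF.1 x hx
    refine (H x (hFU hx) y (hXV (hF' hy)) ?_).2 (hF' hy)
    refine BFR.anti ?_ hb
    rintro a (rfl | ha)
    · exact Or.inr hxy
    · exact Or.inl ha
  exact (cov_iff hL hζ (hb.mono hκ) hFU (hF'.trans hXV) (hqF.mono subset_union_right)).1
    (hc F hFX)

theorem covS_iff' (hL : Ar2 L) (hζ : ζ < om1) {p : Set (M × N)} {X' : Set N} (hXU : X ⊆ U)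
    (hXV : X' ⊆ V) {κ : Ordinal.{0}} (hκ : up ζ + Ordinal.omega0 ≤ κ)
    (H : ∀ x ∈ U, ∀ x' ∈ V, BFR S T U V κ (insert (x, x') p) → (x ∈ X ↔ x' ∈ X'))
    (h : BFR S T U V (κ + Ordinal.omega0) p) : CovS S U X k ζ ↔ CovS T V X' k ζ := by
  refine ⟨CLB_covS hL hζ hXU hXV hκ H h, CLB_covS hL hζ hXV hXU hκ ?_ h.swap⟩
  intro y hy x hx hh
  refine (H x hx y hy (hh.symm ?_)).symm
  rintro a (rfl | ha)
  · exact mem_insert _ _
  · exact mem_insert_of_mem _ ha

theorem jd_iff' (hL : Ar2 L) (hμ : Gd μ) {p : Set (M × N)} {X' : Set N} (hXU : X ⊆ U)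
    (hXV : X' ⊆ V) {κ : Ordinal.{0}} (hκ : μ ≤ κ)
    (H : ∀ x ∈ U, ∀ x' ∈ V, BFR S T U V κ (insert (x, x') p) → (x ∈ X ↔ x' ∈ X'))
    (h : BFR S T U V (κ + Ordinal.omega0) p) : Jd S U μ X ↔ Jd T V μ X' := by
  have hup : ∀ ζ' < μ, up ζ' + Ordinal.omega0 ≤ κ := fun ζ' hζ' =>
    (le_self_add.trans (gd_up hμ hζ').le).trans hκ
  constructor
  · rintro ⟨ζ', hζ', k, hk⟩
    exact ⟨ζ', hζ', k, (covS_iff' hL (hζ'.trans hμ.lt) hXU hXV (hup ζ' hζ') H h).1 hk⟩
  · rintro ⟨ζ', hζ', k, hk⟩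
    exact ⟨ζ', hζ', k, (covS_iff' hL (hζ'.trans hμ.lt) hXU hXV (hup ζ' hζ') H h).2 hk⟩

end Pool.Agent.CW

end

/-! ### formerly `Pool.Agent.CW6.NFa` -/

section

/-!
# CW, module NFa
-/

set_option autoImplicit false
set_option linter.unusedSectionVars false
set_option linter.unusedVariables false

namespace Pool.Agent.CW

open Set Pool.Agent.Helper5 Pool.Agent.Helper5.DU Pool.Agent.Helper6.Str
  Pool.Agent.Helper79.VC Pool.Agent.Helper97.VC Pool.Agent.Helper97.MD Pool.Agent.Helper6.VC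
  Pool.Agent.Helper97.LO

open scoped Classical

namespace Dat

variable {L : FirstOrder.Language.{0, 0}} [∀ n, IsEmpty (L.Functions n)] {M : Type}
  {S : L.Structure M} {δ : Ordinal.{0}} (d : Dat S δ) {f : ℕ → Bool} {k k' n : ℕ}
  {c c' : Option ℕ × M}

private theorem nfa_jd_mono {ζ ζ' : Ordinal.{0}} {Z : Set M} (h : Jd S univ ζ Z)
    (hz : ζ ≤ ζ') : Jd S univ ζ' Z := by
  obtain ⟨a, ha, k, hk⟩ := h
  exact ⟨a, ha.trans_le hz, k, hk⟩

private theorem nfa_bt {p : Set (M × M)} (h : AtEq S S p) {x y x' y' : M} (h1 : (x, y) ∈ p)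
    (h2 : (x', y') ∈ p) : bt S x x' = bt S y y' := by
  have key : ∀ {u v u' v' : M}, (u, v) ∈ p → (u', v') ∈ p → ∀ R : L.Relations 2,
      S.RelMap R ![u, u'] ↔ S.RelMap R ![v, v'] := by
    intro u v u' v' hu hu' R
    have h3 := h.2 2 R ![(u, v), (u', v')] (fun i => by fin_cases i <;> simp [hu, hu'])
    have e1 : (fun i => (![(u, v), (u', v')] i).1) = ![u, u'] := by
      funext i
      fin_cases i <;> rfl
    have e2 : (fun i => (![(u, v), (u', v')] i).2) = ![v, v'] := by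
      funext i
      fin_cases i <;> rfl
    rw [e1, e2] at h3
    exact h3
  refine Prod.ext ?_ ?_
  · ext R
    exact key h1 h2 R
  · ext R
    exact key h2 h1 R

/-- the order of the ordinals -/
theorem ords : d.a < d.a₁ ∧ d.a₁ < d.b ∧ d.b < d.z ∧ d.z < d.ζ 0 ∧ d.ζ 0 < d.ω' ∧
    d.ω' < d.lam ∧ d.lam < om1 ∧ Gd d.a₁ :=
  ⟨d.haa, d.hab, d.hbz, d.hzζ, d.hζω 0, d.hωl, d.hlam.lt, d.cls₁.gd⟩

theorem zeta_mono {m n : ℕ} (h : m ≤ n) : d.ζ m ≤ d.ζ n :=
  monotone_nat_of_le_succ (fun n => (d.hζs n).le) h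

theorem ix_unique {m n : ℕ} (h : d.Ix m k) (h' : d.Ix n k) : m = n := by
  rcases lt_trichotomy m n with hmn | hmn | hmn
  · exact absurd (nfa_jd_mono h.1 (d.zeta_mono hmn)) h'.2
  · exact hmn
  · exact absurd (nfa_jd_mono h'.1 (d.zeta_mono hmn)) h.2

theorem rep_of_mem (hk : k ∈ d.R f) : RepD S d.B d.b d.ω' d.lam (d.U k) (d.P k) (d.Q k)
    (d.G k) (d.P' k) (d.Q' k) (d.G' k) (d.q k) := by
  obtain ⟨n, -, h⟩ := hk
  exact d.rep k n h.1 h.2

theorem U_disj (h : k ≠ k') : Disjoint (d.U k) (d.U k') := by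
  rw [Set.disjoint_left]
  intro x hx hx'
  rcases lt_or_gt_of_ne h with h | h
  · exact hx'.2 (mem_iUnion₂.2 ⟨k, h, hx.1⟩)
  · exact hx.2 (mem_iUnion₂.2 ⟨k', h, hx'.1⟩)

theorem V_sub (hk : k ∈ d.R f) : d.V k ⊆ d.U k := (d.rep_of_mem hk).sub

theorem V_disj (hk : k ∈ d.R f) (hk' : k' ∈ d.R f) (h : k ≠ k') :
    Disjoint (d.V k) (d.V k') :=
  (d.U_disj h).mono (d.V_sub hk) (d.V_sub hk')

theorem bfr_VV (hk : k ∈ d.R f) : BFR S S (d.V' k ∩ d.B) (d.V k ∩ d.B) d.b (d.q k) := by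
  have hr := d.rep_of_mem hk
  have hbl : d.b < d.lam := by
    obtain ⟨-, -, h3, h4, h5, h6, -, -⟩ := d.ords
    exact h3.trans (h4.trans (h5.trans h6))
  have h1 : BFR S S (d.V' k) (d.V' k ∩ d.B) d.b (dg (d.G' k : Set M)) :=
    piece_B (F := d.P' k ∪ d.Q' k) d.hlam d.clo
      (by
        rw [Finset.coe_union]
        exact union_subset hr.inB'.1 hr.inB'.2.1)
      d.hlam.om (dfAt_bs S (d.P' k) (d.Q' k)) hbl (Finset.finite_toSet _) hr.inB'.2.2
  have h2 : BFR S S (d.V k) (d.V k ∩ d.B) d.b (dg (d.G k : Set M)) :=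
    piece_B (F := d.P k ∪ d.Q k) d.hlam d.clo
      (by
        rw [Finset.coe_union]
        exact union_subset hr.inB.1 hr.inB.2.1)
      d.hlam.om (dfAt_bs S (d.P k) (d.Q k)) hbl (Finset.finite_toSet _) hr.inB.2.2
  have h1' : BFR S S (d.V' k ∩ d.B) (d.V' k) d.b (dg (d.G' k : Set M)) :=
    h1.symm (by
      rintro a ⟨x, hx, rfl⟩
      exact ⟨x, hx, rfl⟩)
  have h3 : BFR S S (d.V' k ∩ d.B) (d.V k) d.b (d.q k) :=
    h1'.trans hr.bfr (fun a ha => ⟨a.1, ⟨a.1, (hr.mem a ha).1, rfl⟩, ha⟩)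
  exact h3.trans h2 (fun a ha => ⟨a.2, ha, ⟨a.2, (hr.mem a ha).2, rfl⟩⟩)

theorem ctb_UN (f : ℕ → Bool) : (d.UN f).Countable := by
  refine ((countable_univ : (univ : Set (Option ℕ)).Countable).prod d.ctb).mono ?_
  rintro c (⟨-, h, -⟩ | ⟨k, -, -, -, h⟩)
  · exact ⟨mem_univ _, h⟩
  · exact ⟨mem_univ _, h⟩

theorem u_none (x : M) : d.u (none, x) = x := rfl

theorem u_some (hk : k ∈ d.R f) {x : M} (hx : x ∈ d.V' k) (hxB : x ∈ d.B) :
    d.u (some k, x) ∈ d.V k ∧ d.u (some k, x) ∈ d.B ∧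
      AtEq S S (insert (x, d.u (some k, x)) (d.q k)) := by
  have h0 : (0 : Ordinal.{0}) < d.b := Ordinal.omega0_pos.trans d.hb.om
  have hex : ∃ y, y ∈ d.V k ∧ y ∈ d.B ∧ AtEq S S (insert (x, y) (d.q k)) := by
    obtain ⟨y, hy, h⟩ := (d.bfr_VV hk).forth h0 (x := x) ⟨hx, hxB⟩
    exact ⟨y, hy.1, hy.2, h.atEq⟩
  have e : d.u (some k, x) = hex.choose := by
    unfold u
    exact dif_pos hex
  rw [e]
  exact hex.choose_spec

/-- the two kinds of elements -/
theorem mem_UN (hc : c ∈ d.UN f) :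
    (c.1 = none ∧ d.u c = c.2 ∧ c.2 ∈ d.B ∧ ∀ k ∈ d.R f, c.2 ∉ d.V k) ∨
    ∃ k ∈ d.R f, c.1 = some k ∧ c.2 ∈ d.V' k ∧ c.2 ∈ d.B ∧ d.u c ∈ d.V k ∧ d.u c ∈ d.B ∧
      AtEq S S (insert (c.2, d.u c) (d.q k)) := by
  rcases hc with ⟨h1, h2, h3⟩ | ⟨k, hk, h1, h2, h3⟩
  · left
    refine ⟨h1, ?_, h2, h3⟩
    obtain ⟨o, x⟩ := c
    simp only at h1
    subst h1
    rfl
  · right
    refine ⟨k, hk, h1, h2, h3, ?_⟩
    obtain ⟨o, x⟩ := c
    simp only at h1 h2 h3
    subst h1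
    exact d.u_some hk h2 h3

theorem u_mem_B (hc : c ∈ d.UN f) : d.u c ∈ d.B := by
  rcases d.mem_UN hc with ⟨-, h1, h2, -⟩ | ⟨k, -, -, -, -, -, h, -⟩
  · rw [h1]
    exact h2
  · exact h

theorem u_mem_V (hc : c ∈ d.UN f) (hk : k ∈ d.R f) : d.u c ∈ d.V k ↔ c.1 = some k := by
  rcases d.mem_UN hc with ⟨h0, h1, -, h3⟩ | ⟨k', hk', h0, -, -, h, -, -⟩
  · constructor
    · intro h
      rw [h1] at h
      exact absurd h (h3 k hk)
    · intro h
      rw [h0] at h
      exact absurd h (by simp)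
  · constructor
    · intro h'
      by_cases hkk : k' = k
      · rw [h0, hkk]
      · exact absurd h' (Set.disjoint_left.1 (d.V_disj hk' hk hkk) h)
    · intro h'
      rw [h0] at h'
      have hkk : k' = k := by simpa using h'
      rw [← hkk]
      exact h

theorem bt_TN_of_ne (h : ∀ k : ℕ, ¬ (c.1 = some k ∧ c'.1 = some k)) :
    bt d.TN c c' = bt S (d.u c) (d.u c') := by
  have key : ∀ {a a' : Option ℕ × M}, (∀ k : ℕ, ¬ (a.1 = some k ∧ a'.1 = some k)) →
      ∀ R : L.Relations 2, d.TN.RelMap R ![a, a'] ↔ S.RelMap R ![d.u a, d.u a'] := by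
    intro a a' ha R
    have h1 : ¬ ∃ k : ℕ, ∀ i, (![a, a'] i).1 = some k := by
      rintro ⟨k, hk⟩
      exact ha k ⟨hk 0, hk 1⟩
    have e : (fun i => d.u (![a, a'] i)) = ![d.u a, d.u a'] := by
      funext i
      fin_cases i <;> rfl
    show (if (∃ k : ℕ, ∀ i, (![a, a'] i).1 = some k) then
      S.RelMap R (fun i => (![a, a'] i).2) else S.RelMap R (fun i => d.u (![a, a'] i))) ↔ _
    rw [if_neg h1, e]
  refine Prod.ext ?_ ?_
  · ext R
    exact key h R
  · ext R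
    exact key (fun k hk => h k hk.symm) R

theorem bt_TN_same (h : c.1 = some k) (h' : c'.1 = some k) :
    bt d.TN c c' = bt S c.2 c'.2 := by
  have key : ∀ {a a' : Option ℕ × M}, a.1 = some k → a'.1 = some k →
      ∀ R : L.Relations 2, d.TN.RelMap R ![a, a'] ↔ S.RelMap R ![a.2, a'.2] := by
    intro a a' ha ha' R
    have h1 : ∃ k : ℕ, ∀ i, (![a, a'] i).1 = some k := by
      refine ⟨k, fun i => ?_⟩
      fin_cases i
      · exact ha
      · exact ha'
    have e : (fun i => (![a, a'] i).2) = ![a.2, a'.2] := by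
      funext i
      fin_cases i <;> rfl
    show (if (∃ k : ℕ, ∀ i, (![a, a'] i).1 = some k) then
      S.RelMap R (fun i => (![a, a'] i).2) else S.RelMap R (fun i => d.u (![a, a'] i))) ↔ _
    rw [if_pos h1, e]
  refine Prod.ext ?_ ?_
  · ext R
    exact key h h' R
  · ext R
    exact key h' h R

/-- the elements of `V k` which agree over `G k` have the same rows -/
theorem row_V (hk : k ∈ d.R f) {x x' y : M} (hx : x ∈ d.V k) (hx' : x' ∈ d.V k)
    (h : ∀ g ∈ d.G k, bt S x g = bt S x' g) (hy : y ∉ d.V k) : bt S x y = bt S x' y := by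
  obtain ⟨g, hg, hgy⟩ := (d.rep_of_mem hk).rc.2 y (mem_univ _) hy
  rw [hgy x hx, hgy x' hx', h g hg]

/-- `u c` and `y` have the same row if they have the same atomic type as `c.2` over the
representatives -/
theorem row_u (hk : k ∈ d.R f) {x y w : M} (hx : x ∈ d.V' k) (hxB : x ∈ d.B)
    (hy : y ∈ d.V k) (h : AtEq S S (insert (x, y) (d.q k))) (hw : w ∉ d.V k) :
    bt S (d.u (some k, x)) w = bt S y w := by
  obtain ⟨h1, -, h3⟩ := d.u_some hk hx hxB
  refine d.row_V hk h1 hy (fun g hg => ?_) hw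
  obtain ⟨g', hg', hq⟩ := (d.rep_of_mem hk).mt.2 g hg
  rw [← nfa_bt h3 (mem_insert _ _) (mem_insert_of_mem _ hq),
    ← nfa_bt h (mem_insert _ _) (mem_insert_of_mem _ hq)]

end Dat

end Pool.Agent.CW

end

/-! ### formerly `Pool.Agent.CW6.NFb` -/

section

/-!
# CW, module NFb
-/

set_option autoImplicit false
set_option linter.unusedSectionVars false
set_option linter.unusedVariables false

namespace Pool.Agent.CW

open Set Pool.Agent.Helper5 Pool.Agent.Helper5.DU Pool.Agent.Helper6.Str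
  Pool.Agent.Helper79.VC Pool.Agent.Helper97.VC Pool.Agent.Helper97.MD Pool.Agent.Helper6.VC
  Pool.Agent.Helper97.LO

open scoped Classical

namespace Dat

variable {L : FirstOrder.Language.{0, 0}} [∀ n, IsEmpty (L.Functions n)] {M : Type}
  {S : L.Structure M} {δ : Ordinal.{0}} {d : Dat S δ} {f : ℕ → Bool} {k : ℕ}
  {c c' : Option ℕ × M} {x : M} {β β' : Ordinal.{0}} {p p' : Set ((Option ℕ × M) × M)}

theorem adm_empty (hβ : β ≤ d.b) : d.Adm f β ∅ where
  fin := finite_empty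
  mem := fun c hc => hc.elim
  hnone := fun c hc => hc.elim
  hsome := fun c hc => hc.elim
  bfr := by
    intro k hk
    refine BFR.anti ?_ ((d.bfr_VV hk).mono hβ)
    rintro a (ha | ha)
    · exact ha.elim
    · exact ha

theorem Adm.mono (h : d.Adm f β p) (hβ : β' ≤ β) : d.Adm f β' p where
  fin := h.fin
  mem := h.mem
  hnone := h.hnone
  hsome := h.hsome
  bfr := fun k hk => (h.bfr k hk).mono hβ

theorem Adm.anti (h : d.Adm f β p) (hp : p' ⊆ p) : d.Adm f β p' where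
  fin := h.fin.subset hp
  mem := fun c hc => h.mem c (hp hc)
  hnone := fun c hc => h.hnone c (hp hc)
  hsome := fun c hc => h.hsome c (hp hc)
  bfr := by
    intro k hk
    refine BFR.anti ?_ (h.bfr k hk)
    rintro a (ha | ha)
    · exact Or.inl (hp ha)
    · exact Or.inr ha

/-- extension by the identity, without loss -/
theorem Adm.ident (h : d.Adm f β p) (hx : ((none : Option ℕ), x) ∈ d.UN f) :
    d.Adm f β (insert (((none : Option ℕ), x), x) p) where
  fin := h.fin.insert _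
  mem := by
    rintro c (rfl | hc)
    · exact ⟨hx, d.u_mem_B hx⟩
    · exact h.mem c hc
  hnone := by
    rintro c (rfl | hc)
    · intro _
      rfl
    · exact h.hnone c hc
  hsome := by
    rintro c (rfl | hc)
    · intro k hk
      exact absurd hk (by simp)
    · exact h.hsome c hc
  bfr := by
    intro k hk
    refine BFR.anti ?_ (h.bfr k hk)
    rintro a (ha | ha)
    · rcases ha with ha | ha
      · exfalso
        have h1 := congrArg (fun e : (Option ℕ × M) × M => e.1.1) ha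
        simp at h1
      · exact Or.inl ha
    · exact Or.inr ha

private theorem nfb_ins (h : d.Adm f β' p) (hβ : β ≤ β') (hk : k ∈ d.R f) {y : M}
    (hy : y ∈ d.V' k ∩ d.B)
    (hx : x ∈ d.V k ∩ d.B) (hb : BFR S S (d.V' k ∩ d.B) (d.V k ∩ d.B) β
      (insert (y, x) ({e | (((some k : Option ℕ), e.1), e.2) ∈ p} ∪ d.q k))) :
    d.Adm f β (insert (((some k : Option ℕ), y), x) p) where
  fin := h.fin.insert _
  mem := by
    rintro c (rfl | hc)
    · exact ⟨Or.inr ⟨k, hk, rfl, hy.1, hy.2⟩, hx.2⟩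
    · exact h.mem c hc
  hnone := by
    rintro c (rfl | hc)
    · intro h0
      exact absurd h0 (by simp)
    · exact h.hnone c hc
  hsome := by
    rintro c (rfl | hc)
    · intro k' hk'
      have : k = k' := by simpa using hk'
      rw [← this]
      exact hx.1
    · exact h.hsome c hc
  bfr := by
    intro k' hk'
    by_cases hkk : k' = k
    · subst hkk
      refine BFR.anti ?_ hb
      rintro a (ha | ha)
      · rcases ha with ha | ha
        · left
          have h1 := congrArg (fun e : (Option ℕ × M) × M => e.1.2) ha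
          have h2 := congrArg (fun e : (Option ℕ × M) × M => e.2) ha
          exact Prod.ext h1 h2
        · exact Or.inr (Or.inl ha)
      · exact Or.inr (Or.inr ha)
    · refine BFR.anti ?_ ((h.bfr k' hk').mono hβ)
      rintro a (ha | ha)
      · rcases ha with ha | ha
        · exfalso
          have h1 := congrArg (fun e : (Option ℕ × M) × M => e.1.1) ha
          simp only [Option.some.injEq] at h1
          exact hkk h1
        · exact Or.inl ha
      · exact Or.inr ha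

theorem Adm.forth (h : d.Adm f (β + 1) p) (hc : c ∈ d.UN f) :
    ∃ x ∈ d.B, d.Adm f β (insert (c, x) p) := by
  have hlt : β < β + 1 := by
    rw [← Order.succ_eq_add_one]
    exact Order.lt_succ β
  rcases d.mem_UN hc with ⟨h0, -, hB, -⟩ | ⟨k, hk, h0, hV', hB, -⟩
  · obtain ⟨o, x⟩ := c
    simp only at h0
    subst h0
    exact ⟨x, hB, (h.mono hlt.le).ident hc⟩
  · obtain ⟨o, y⟩ := c
    simp only at h0 hV' hB
    subst h0
    obtain ⟨x, hx, hb⟩ := (h.bfr k hk).forth hlt (x := y) ⟨hV', hB⟩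
    exact ⟨x, hx.2, nfb_ins h hlt.le hk ⟨hV', hB⟩ hx hb⟩

theorem Adm.back (h : d.Adm f (β + 1) p) (hx : x ∈ d.B) :
    ∃ c ∈ d.UN f, d.Adm f β (insert (c, x) p) := by
  have hlt : β < β + 1 := by
    rw [← Order.succ_eq_add_one]
    exact Order.lt_succ β
  by_cases hV : ∃ k ∈ d.R f, x ∈ d.V k
  · obtain ⟨k, hk, hxV⟩ := hV
    obtain ⟨y, hy, hb⟩ := (h.bfr k hk).back hlt (y := x) ⟨hxV, hx⟩
    exact ⟨(some k, y), Or.inr ⟨k, hk, rfl, hy.1, hy.2⟩, nfb_ins h hlt.le hk hy ⟨hxV, hx⟩ hb⟩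
  · have hc : ((none : Option ℕ), x) ∈ d.UN f :=
      Or.inl ⟨rfl, hx, fun k hk hxV => hV ⟨k, hk, hxV⟩⟩
    exact ⟨(none, x), hc, (h.mono hlt.le).ident hc⟩

private theorem nfb_cast (β : Ordinal.{0}) (n : ℕ) :
    β + ((n + 1 : ℕ) : Ordinal.{0}) = (β + (n : Ordinal.{0})) + 1 := by
  rw [Nat.cast_succ, ← add_assoc]

private theorem nfb_le (β : Ordinal.{0}) (n : ℕ) :
    β + (n : Ordinal.{0}) ≤ β + Ordinal.omega0 :=
  add_le_add_right (Ordinal.natCast_lt_omega0 n).le β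

private theorem nfb_forth (F : Finset (Option ℕ × M)) :
    ∀ {p : Set ((Option ℕ × M) × M)}, d.Adm f (β + (F.card : Ordinal.{0})) p →
    (F : Set (Option ℕ × M)) ⊆ d.UN f →
    ∃ (q : Set ((Option ℕ × M) × M)) (F' : Finset M), q.Finite ∧ (F' : Set M) ⊆ d.B ∧
      Mt q F F' ∧ (∀ a ∈ q, a.1 ∈ F ∧ a.2 ∈ F') ∧ d.Adm f β (p ∪ q) := by
  induction F using Finset.induction_on with
  | empty =>
    intro p h hF
    refine ⟨∅, ∅, finite_empty, ?_, ⟨?_, ?_⟩, ?_, ?_⟩
    · intro x hx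
      simp at hx
    · intro x hx
      simp at hx
    · intro y hy
      simp at hy
    · intro a ha
      exact ha.elim
    · rw [union_empty]
      exact h.mono (by simp)
  | insert c F hcF ih =>
    intro p h hF
    rw [Finset.card_insert_of_notMem hcF, nfb_cast] at h
    obtain ⟨x, hx, h1⟩ := h.forth (c := c) (hF (by simp))
    obtain ⟨q, F', hq, hF', hM, hqF, hA⟩ := ih h1 (fun y hy => hF (by
      rw [Finset.coe_insert]
      exact mem_insert_of_mem _ hy))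
    refine ⟨insert (c, x) q, insert x F', hq.insert _, ?_, ⟨?_, ?_⟩, ?_, ?_⟩
    · rw [Finset.coe_insert]
      exact insert_subset hx hF'
    · intro y hy
      rcases Finset.mem_insert.mp hy with rfl | hy
      · exact ⟨x, Finset.mem_insert_self _ _, mem_insert _ _⟩
      · obtain ⟨z, hz, hyz⟩ := hM.1 y hy
        exact ⟨z, Finset.mem_insert_of_mem hz, mem_insert_of_mem _ hyz⟩
    · intro y hy
      rcases Finset.mem_insert.mp hy with rfl | hy
      · exact ⟨c, Finset.mem_insert_self _ _, mem_insert _ _⟩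
      · obtain ⟨z, hz, hyz⟩ := hM.2 y hy
        exact ⟨z, Finset.mem_insert_of_mem hz, mem_insert_of_mem _ hyz⟩
    · rintro a (rfl | ha)
      · exact ⟨Finset.mem_insert_self _ _, Finset.mem_insert_self _ _⟩
      · exact ⟨Finset.mem_insert_of_mem (hqF a ha).1, Finset.mem_insert_of_mem (hqF a ha).2⟩
    · refine hA.anti ?_
      rintro a (ha | rfl | ha)
      · exact Or.inl (mem_insert_of_mem _ ha)
      · exact Or.inl (mem_insert _ _)
      · exact Or.inr ha

private theorem nfb_back (F' : Finset M) :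
    ∀ {p : Set ((Option ℕ × M) × M)}, d.Adm f (β + (F'.card : Ordinal.{0})) p →
    (F' : Set M) ⊆ d.B →
    ∃ (q : Set ((Option ℕ × M) × M)) (F : Finset (Option ℕ × M)), q.Finite ∧
      (F : Set (Option ℕ × M)) ⊆ d.UN f ∧ Mt q F F' ∧ (∀ a ∈ q, a.1 ∈ F ∧ a.2 ∈ F') ∧
      d.Adm f β (p ∪ q) := by
  induction F' using Finset.induction_on with
  | empty =>
    intro p h hF
    refine ⟨∅, ∅, finite_empty, ?_, ⟨?_, ?_⟩, ?_, ?_⟩
    · intro x hx
      simp at hx
    · intro x hx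
      simp at hx
    · intro y hy
      simp at hy
    · intro a ha
      exact ha.elim
    · rw [union_empty]
      exact h.mono (by simp)
  | insert x F' hxF ih =>
    intro p h hF
    rw [Finset.card_insert_of_notMem hxF, nfb_cast] at h
    obtain ⟨c, hc, h1⟩ := h.back (x := x) (hF (by simp))
    obtain ⟨q, F, hq, hF0, hM, hqF, hA⟩ := ih h1 (fun y hy => hF (by
      rw [Finset.coe_insert]
      exact mem_insert_of_mem _ hy))
    refine ⟨insert (c, x) q, insert c F, hq.insert _, ?_, ⟨?_, ?_⟩, ?_, ?_⟩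
    · rw [Finset.coe_insert]
      exact insert_subset hc hF0
    · intro y hy
      rcases Finset.mem_insert.mp hy with rfl | hy
      · exact ⟨x, Finset.mem_insert_self _ _, mem_insert _ _⟩
      · obtain ⟨z, hz, hyz⟩ := hM.1 y hy
        exact ⟨z, Finset.mem_insert_of_mem hz, mem_insert_of_mem _ hyz⟩
    · intro y hy
      rcases Finset.mem_insert.mp hy with rfl | hy
      · exact ⟨c, Finset.mem_insert_self _ _, mem_insert _ _⟩
      · obtain ⟨z, hz, hyz⟩ := hM.2 y hy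
        exact ⟨z, Finset.mem_insert_of_mem hz, mem_insert_of_mem _ hyz⟩
    · rintro a (rfl | ha)
      · exact ⟨Finset.mem_insert_self _ _, Finset.mem_insert_self _ _⟩
      · exact ⟨Finset.mem_insert_of_mem (hqF a ha).1, Finset.mem_insert_of_mem (hqF a ha).2⟩
    · refine hA.anti ?_
      rintro a (ha | rfl | ha)
      · exact Or.inl (mem_insert_of_mem _ ha)
      · exact Or.inl (mem_insert _ _)
      · exact Or.inr ha

theorem Adm.forth_fin (h : d.Adm f (β + Ordinal.omega0) p) (F : Finset (Option ℕ × M))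
    (hF : (F : Set (Option ℕ × M)) ⊆ d.UN f) :
    ∃ (q : Set ((Option ℕ × M) × M)) (F' : Finset M), q.Finite ∧ (F' : Set M) ⊆ d.B ∧
      Mt q F F' ∧ (∀ a ∈ q, a.1 ∈ F ∧ a.2 ∈ F') ∧ d.Adm f β (p ∪ q) :=
  nfb_forth F (h.mono (nfb_le β _)) hF

theorem Adm.back_fin (h : d.Adm f (β + Ordinal.omega0) p) (F' : Finset M)
    (hF : (F' : Set M) ⊆ d.B) :
    ∃ (q : Set ((Option ℕ × M) × M)) (F : Finset (Option ℕ × M)), q.Finite ∧
      (F : Set (Option ℕ × M)) ⊆ d.UN f ∧ Mt q F F' ∧ (∀ a ∈ q, a.1 ∈ F ∧ a.2 ∈ F') ∧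
      d.Adm f β (p ∪ q) :=
  nfb_back F' (h.mono (nfb_le β _)) hF

/-- one extension by two finite sets -/
theorem Adm.ext2 (h : d.Adm f (β + Ordinal.omega0) p) (P Q : Finset (Option ℕ × M))
    (hP : (P : Set (Option ℕ × M)) ⊆ d.UN f) (hQ : (Q : Set (Option ℕ × M)) ⊆ d.UN f) :
    ∃ (p' : Set ((Option ℕ × M) × M)) (P' Q' : Finset M), p ⊆ p' ∧ d.Adm f β p' ∧
      Mt p' P P' ∧ Mt p' Q Q' ∧ (P' : Set M) ⊆ d.B ∧ (Q' : Set M) ⊆ d.B := by
  obtain ⟨q, F', hq, hF', hM, hqF, hA⟩ := h.forth_fin (P ∪ Q) (by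
    rw [Finset.coe_union]
    exact union_subset hP hQ)
  have hsub : ∀ P₀ : Finset (Option ℕ × M), P₀ ⊆ P ∪ Q → ∃ P₀' : Finset M,
      (P₀' : Set M) ⊆ d.B ∧ Mt (p ∪ q) P₀ P₀' := by
    intro P₀ hP₀
    refine ⟨F'.filter fun y => ∃ x ∈ P₀, (x, y) ∈ q, ?_, ?_, ?_⟩
    · intro y hy
      exact hF' (Finset.mem_filter.mp hy).1
    · intro x hx
      obtain ⟨y, hy, hxy⟩ := hM.1 x (hP₀ hx)
      exact ⟨y, Finset.mem_filter.mpr ⟨hy, x, hx, hxy⟩, Or.inr hxy⟩
    · intro y hy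
      obtain ⟨-, x, hx, hxy⟩ := Finset.mem_filter.mp hy
      exact ⟨x, hx, Or.inr hxy⟩
  obtain ⟨P', hP', hMP⟩ := hsub P Finset.subset_union_left
  obtain ⟨Q', hQ', hMQ⟩ := hsub Q Finset.subset_union_right
  exact ⟨p ∪ q, P', Q', subset_union_left, hA, hMP, hMQ, hP', hQ'⟩

/-- the cores are respected -/
theorem Adm.mem_U (h : d.Adm f β p) {a : (Option ℕ × M) × M} (ha : a ∈ p) (m : ℕ) :
    d.u a.1 ∈ d.U m ↔ a.2 ∈ d.U m := by
  rcases d.mem_UN (h.mem a ha).1 with ⟨h0, h1, -, -⟩ | ⟨k, hk, h0, -, -, h1, -⟩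
  · rw [h1, h.hnone a ha h0]
  · have h2 : d.u a.1 ∈ d.U k := d.V_sub hk h1
    have h3 : a.2 ∈ d.U k := d.V_sub hk (h.hsome a ha k h0)
    by_cases hkm : k = m
    · subst hkm
      exact ⟨fun _ => h3, fun _ => h2⟩
    · constructor
      · intro h4
        exact absurd h4 (Set.disjoint_left.1 (d.U_disj hkm) h2)
      · intro h4
        exact absurd h4 (Set.disjoint_left.1 (d.U_disj hkm) h3)

theorem Adm.mem_V (h : d.Adm f β p) {a : (Option ℕ × M) × M} (ha : a ∈ p)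
    (hk : k ∈ d.R f) : a.1.1 = some k ↔ a.2 ∈ d.V k := by
  constructor
  · intro h0
    exact h.hsome a ha k h0
  · intro h0
    rcases d.mem_UN (h.mem a ha).1 with ⟨h1, -, -, h2⟩ | ⟨k', hk', h1, -⟩
    · rw [h.hnone a ha h1] at h0
      exact absurd h0 (h2 k hk)
    · by_cases hkk : k' = k
      · rw [h1, hkk]
      · exact absurd h0 (Set.disjoint_left.1 (d.V_disj hk' hk hkk) (h.hsome a ha k' h1))

/-- the rows of the elements of an admissible map -/
private theorem nfb_row (h : d.Adm f β p) {a : (Option ℕ × M) × M} (ha : a ∈ p) {w : M}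
    (hw : ∀ k ∈ d.R f, a.1.1 = some k → w ∉ d.V k) : bt S (d.u a.1) w = bt S a.2 w := by
  rcases d.mem_UN (h.mem a ha).1 with ⟨h0, h1, -, -⟩ | ⟨k, hk, h0, h1, h2, -⟩
  · rw [h1, h.hnone a ha h0]
  · have h3 : AtEq S S (insert (a.1.2, a.2) (d.q k)) := by
      refine AtEq.anti ?_ (h.bfr k hk).atEq
      rintro e (rfl | he)
      · left
        show (((some k : Option ℕ), a.1.2), a.2) ∈ p
        rw [← h0]
        exact ha
      · exact Or.inr he
    have h4 := d.row_u hk h1 h2 (h.hsome a ha k h0) h3 (hw k hk h0)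
    rw [← h0] at h4
    exact h4

private theorem nfb_un (hL : Ar2 L) (h : d.Adm f β p) {a : (Option ℕ × M) × M} (ha : a ∈ p) :
    AtEq d.TN S {a} := by
  refine ⟨?_, fun n R v hv => ?_⟩
  · rintro x rfl y rfl
    simp
  · by_cases hn : n = 0
    · subst hn
      exact ((hL 0 (by norm_num) (by norm_num)).false R).elim
    · have hpos : 0 < n := Nat.pos_of_ne_zero hn
      have e1 : (fun i => (v i).1) = fun _ => a.1 := by
        funext i
        rw [hv i]
      have e2 : (fun i => (v i).2) = fun _ => a.2 := by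
        funext i
        rw [hv i]
      rw [e1, e2]
      show (if (∃ k : ℕ, ∀ i : Fin n, a.1.1 = some k) then
        S.RelMap R (fun _ => a.1.2) else S.RelMap R (fun _ => d.u a.1)) ↔ _
      rcases d.mem_UN (h.mem a ha).1 with ⟨h0, h1, -, -⟩ | ⟨k, hk, h0, h1, h2, -⟩
      · rw [if_neg]
        · rw [h1, h.hnone a ha h0]
        · rintro ⟨k, hk⟩
          have := hk ⟨0, hpos⟩
          rw [h0] at this
          exact absurd this (by simp)
      · rw [if_pos ⟨k, fun _ => h0⟩]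
        have h3 : (a.1.2, a.2) ∈ ({e | (((some k : Option ℕ), e.1), e.2) ∈ p} ∪ d.q k) := by
          left
          show (((some k : Option ℕ), a.1.2), a.2) ∈ p
          rw [← h0]
          exact ha
        exact (h.bfr k hk).atEq.2 n R (fun _ => (a.1.2, a.2)) (fun _ => h3)

theorem Adm.atEq (hL : Ar2 L) (h : d.Adm f β p) : AtEq d.TN S p := by
  refine atEq_of_pairs hL fun a ha b hb => ?_
  refine atEq_pair hL (nfb_un hL h ha) (nfb_un hL h hb) ?_ ?_
  · -- injectivity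
    by_cases hs : ∃ k : ℕ, a.1.1 = some k ∧ b.1.1 = some k
    · obtain ⟨k, h1, h2⟩ := hs
      have hkR : k ∈ d.R f := by
        rcases d.mem_UN (h.mem a ha).1 with ⟨h0, -⟩ | ⟨k', hk', h0, -⟩
        · rw [h0] at h1
          exact absurd h1 (by simp)
        · rw [h0] at h1
          have : k' = k := by simpa using h1
          rw [← this]
          exact hk'
      have h3 : (a.1.2, a.2) ∈ ({e | (((some k : Option ℕ), e.1), e.2) ∈ p} ∪ d.q k) := by
        left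
        show (((some k : Option ℕ), a.1.2), a.2) ∈ p
        rw [← h1]
        exact ha
      have h4 : (b.1.2, b.2) ∈ ({e | (((some k : Option ℕ), e.1), e.2) ∈ p} ∪ d.q k) := by
        left
        show (((some k : Option ℕ), b.1.2), b.2) ∈ p
        rw [← h2]
        exact hb
      have h5 := (h.bfr k hkR).atEq.1 _ h3 _ h4
      rw [← h5]
      constructor
      · intro h6
        rw [h6]
      · intro h6
        exact Prod.ext (h1.trans h2.symm) h6
    · by_cases hn : a.1.1 = none ∧ b.1.1 = none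
      · rw [h.hnone a ha hn.1, h.hnone b hb hn.2]
        constructor
        · intro h6
          rw [h6]
        · intro h6
          exact Prod.ext (hn.1.trans hn.2.symm) h6
      · have hne : a.1.1 ≠ b.1.1 := by
          intro h6
          cases hA : a.1.1 with
          | none => exact hn ⟨hA, by rw [← h6, hA]⟩
          | some k => exact hs ⟨k, hA, by rw [← h6, hA]⟩
        constructor
        · intro h6
          exact absurd (by rw [h6]) hne
        · intro h6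
          exfalso
          rcases d.mem_UN (h.mem a ha).1 with ⟨h0, -⟩ | ⟨k, hk, h0, -⟩
          · rcases d.mem_UN (h.mem b hb).1 with ⟨h0', -⟩ | ⟨k, hk, h0', -⟩
            · exact hn ⟨h0, h0'⟩
            · have h7 := (h.mem_V hb hk).1 h0'
              rw [← h6] at h7
              have h8 := (h.mem_V ha hk).2 h7
              exact hs ⟨k, h8, h0'⟩
          · have h7 := (h.mem_V ha hk).1 h0
            rw [h6] at h7
            have h8 := (h.mem_V hb hk).2 h7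
            exact hs ⟨k, h0, h8⟩
  · -- the labels
    by_cases hs : ∃ k : ℕ, a.1.1 = some k ∧ b.1.1 = some k
    · obtain ⟨k, h1, h2⟩ := hs
      have hkR : k ∈ d.R f := by
        rcases d.mem_UN (h.mem a ha).1 with ⟨h0, -⟩ | ⟨k', hk', h0, -⟩
        · rw [h0] at h1
          exact absurd h1 (by simp)
        · rw [h0] at h1
          have : k' = k := by simpa using h1
          rw [← this]
          exact hk'
      rw [d.bt_TN_same h1 h2]
      have h3 : (a.1.2, a.2) ∈ ({e | (((some k : Option ℕ), e.1), e.2) ∈ p} ∪ d.q k) := by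
        left
        show (((some k : Option ℕ), a.1.2), a.2) ∈ p
        rw [← h1]
        exact ha
      have h4 : (b.1.2, b.2) ∈ ({e | (((some k : Option ℕ), e.1), e.2) ∈ p} ∪ d.q k) := by
        left
        show (((some k : Option ℕ), b.1.2), b.2) ∈ p
        rw [← h2]
        exact hb
      exact bt_of_atEq (h.bfr k hkR).atEq h3 h4
    · rw [d.bt_TN_of_ne (fun k hk => hs ⟨k, hk⟩)]
      have h1 : bt S (d.u a.1) (d.u b.1) = bt S a.2 (d.u b.1) := by
        refine nfb_row h ha ?_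
        intro k hk hak hbk
        exact hs ⟨k, hak, (d.u_mem_V (h.mem b hb).1 hk).1 hbk⟩
      have h2 : bt S (d.u b.1) a.2 = bt S b.2 a.2 := by
        refine nfb_row h hb ?_
        intro k hk hbk hak
        exact hs ⟨k, (h.mem_V ha hk).2 hak, hbk⟩
      rw [h1, (lbl_bt hL S).rev (d.u b.1) a.2, h2, ← (lbl_bt hL S).rev b.2 a.2]

theorem Adm.bfr_B (hL : Ar2 L) (h : d.Adm f β p) : BFR d.TN S (d.UN f) d.B β p := by
  induction β using WellFoundedLT.induction generalizing p with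
  | _ β ih =>
    rw [BFR.def]
    refine ⟨h.atEq hL, fun γ hγ => ?_⟩
    have h1 : d.Adm f (γ + 1) p := h.mono (Order.add_one_le_of_lt hγ)
    refine ⟨fun c hc => ?_, fun x hx => ?_⟩
    · obtain ⟨x, hx, h2⟩ := h1.forth hc
      exact ⟨x, hx, ih γ hγ h2⟩
    · obtain ⟨c, hc, h2⟩ := h1.back hx
      exact ⟨c, hc, ih γ hγ h2⟩

theorem Adm.bfr_univ (hL : Ar2 L) (h : d.Adm f β p) (hβ : β < d.lam) :
    BFR d.TN S (d.UN f) univ β p :=
  (clo_bfr_iff (d.clo β hβ) h.fin (fun a ha => (h.mem a ha).2)).2 (h.bfr_B hL)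

theorem bfr_UN (hL : Ar2 L) (f : ℕ → Bool) : BFR d.TN S (d.UN f) univ δ ∅ := by
  obtain ⟨-, -, h3, h4, h5, h6, -, -⟩ := d.ords
  exact (adm_empty (f := f) d.hδ.le).bfr_univ hL (d.hδ.trans (h3.trans (h4.trans (h5.trans h6))))

end Dat

end Pool.Agent.CW

end

/-! ### formerly `Pool.Agent.CW6.NFc` -/

section

/-!
# CW, module NFc
-/

set_option autoImplicit false
set_option linter.unusedSectionVars false
set_option linter.unusedVariables false

namespace Pool.Agent.CW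

open Set Pool.Agent.Helper5 Pool.Agent.Helper5.DU Pool.Agent.Helper6.Str
  Pool.Agent.Helper79.VC Pool.Agent.Helper97.VC Pool.Agent.Helper97.MD Pool.Agent.Helper6.VC
  Pool.Agent.Helper97.LO

open scoped Classical

namespace Dat

variable {L : FirstOrder.Language.{0, 0}} [∀ n, IsEmpty (L.Functions n)] {M : Type}
  {S : L.Structure M} {δ : Ordinal.{0}} (d : Dat S δ) {f : ℕ → Bool} {k : ℕ}

private theorem NFc_btSwap {S : L.Structure M} {x y x' y' : M} (h : bt S x y = bt S x' y') :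
    bt S y x = bt S y' x' :=
  Prod.ext (congrArg Prod.snd h) (congrArg Prod.fst h)

/-- ranks of respected sets -/
theorem rk_le_of_adm (hL : Ar2 L) {X : Set (Option ℕ × M)} {X' : Set M}
    (hX : X ⊆ d.UN f)
    (H : ∀ p : Set ((Option ℕ × M) × M), d.Adm f 0 p → ∀ a ∈ p, (a.1 ∈ X ↔ a.2 ∈ X')) :
    rk (bt d.TN) (d.UN f) X ≤ rk (bt S) univ X' := by
  by_cases hr : rk (bt S) univ X' = ⊤
  · rw [hr]
    exact le_top
  obtain ⟨n, hn⟩ := ENat.ne_top_iff_exists.mp hr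
  rw [← hn, rk_le_iff]
  intro P Q hP hQ
  have h0 : d.Adm f (0 + Ordinal.omega0) ∅ := by
    apply adm_empty
    rw [zero_add]
    exact d.hb.om.le
  obtain ⟨p', P', Q', -, h1, h2, h3, -, -⟩ := h0.ext2 P Q (hP.trans hX) (hQ.trans sdiff_subset)
  have h4 := rho_of_atEq (h1.atEq hL) h2 h3
  rw [h4]
  have h5 : (rho (bt S) P' Q' : ℕ∞) ≤ rk (bt S) univ X' := by
    apply rho_le_rk
    · intro y hy
      obtain ⟨x, hx, hxy⟩ := h2.2 y hy
      exact (H p' h1 _ hxy).mp (hP hx)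
    · intro y hy
      obtain ⟨x, hx, hxy⟩ := h3.2 y hy
      exact ⟨mem_univ _, fun hy' => (hQ hx).2 ((H p' h1 _ hxy).mpr hy')⟩
  rw [← hn] at h5
  exact_mod_cast h5

private theorem NFc_mem_UU {p : Set ((Option ℕ × M) × M)} {β : Ordinal.{0}}
    (h : d.Adm f β p) {a : (Option ℕ × M) × M} (ha : a ∈ p) (k : ℕ) :
    a.1 ∈ d.UU f k ↔ a.2 ∈ d.U k :=
  ⟨fun h1 => (h.mem_U ha k).mp h1.2, fun h1 => ⟨(h.mem a ha).1, (h.mem_U ha k).mpr h1⟩⟩

theorem rk_UU (hL : Ar2 L) (f : ℕ → Bool) (k : ℕ) :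
    rk (bt d.TN) (d.UN f) (d.UU f k) ≤ d.t :=
  (d.rk_le_of_adm hL (X' := d.U k) (fun c hc => hc.1)
    fun p hp a ha => d.NFc_mem_UU hp ha k).trans (d.U_rk k)

/-- elements of `V k` have twins in the new piece -/
theorem exists_twin (hk : k ∈ d.R f) {x : M} (hx : x ∈ d.V k) (hxB : x ∈ d.B) :
    ∃ c ∈ d.UN f, c.1 = some k ∧ ∀ y, y ∉ d.V k → bt S (d.u c) y = bt S x y := by
  have h0 : d.Adm f (0 + 1) ∅ := by
    apply adm_empty
    rw [zero_add]
    exact (Ordinal.one_lt_omega0.le).trans d.hb.om.le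
  obtain ⟨c, hc, h1⟩ := h0.back hxB
  have hm : (c, x) ∈ (insert (c, x) ∅ : Set ((Option ℕ × M) × M)) := mem_insert _ _
  have h2 : c.1 = some k := (h1.mem_V hm hk).mpr hx
  refine ⟨c, hc, h2, fun y hy => ?_⟩
  rcases d.mem_UN hc with h3 | ⟨k', hk', h3, h4, h5, -⟩
  · rw [h3.1] at h2
    cases h2
  · have hkk : k = k' := by
      rw [h2] at h3
      exact Option.some.inj h3
    subst hkk
    have h6 : AtEq S S (insert (c.2, x) (d.q k)) := by
      refine AtEq.anti ?_ (h1.bfr k hk).atEq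
      intro e he
      rcases he with rfl | he
      · refine Or.inl ?_
        show (((some k : Option ℕ), c.2), x) ∈ (insert (c, x) ∅ : Set ((Option ℕ × M) × M))
        rw [← h2]
        exact mem_insert _ _
      · exact Or.inr he
    have h7 := d.row_u hk h4 h5 hx h6 hy
    rw [← h7, ← h2]

/-- every element of `B` has a twin in `UN f` -/
theorem exists_rowmate (f : ℕ → Bool) {x : M} (hx : x ∈ d.B) :
    ∃ c ∈ d.UN f, (d.u c = x ∧ c.1 = none) ∨
      ∃ k ∈ d.R f, x ∈ d.V k ∧ c.1 = some k ∧ ∀ y, y ∉ d.V k → bt S (d.u c) y = bt S x y := by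
  by_cases h : ∃ k ∈ d.R f, x ∈ d.V k
  · obtain ⟨k, hk, hxk⟩ := h
    obtain ⟨c, hc, h1, h2⟩ := d.exists_twin hk hxk hx
    exact ⟨c, hc, Or.inr ⟨k, hk, hxk, h1, h2⟩⟩
  · push Not at h
    exact ⟨(none, x), Or.inl ⟨rfl, hx, h⟩, Or.inl ⟨d.u_none x, rfl⟩⟩

private theorem NFc_none {W : Set M} (hW : ∀ k ∈ d.R f, ∀ x ∈ W, x ∉ d.V k)
    {c : Option ℕ × M} (hc : c ∈ d.UN f) (h : d.u c ∈ W) : c.1 = none ∧ d.u c = c.2 := by
  rcases d.mem_UN hc with h1 | ⟨k', hk', -, -, -, h2, -⟩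
  · exact ⟨h1.1, h1.2.1⟩
  · exact absurd h2 (hW k' hk' _ h)

private theorem NFc_iso (hL : Ar2 L) {W : Set M} (hW : ∀ k ∈ d.R f, ∀ x ∈ W, x ∉ d.V k)
    (hr : rk (bt S) univ W ≠ ⊤)
    (H : ∀ p : Set ((Option ℕ × M) × M), d.Adm f 0 p → ∀ a ∈ p, (d.u a.1 ∈ W ↔ a.2 ∈ W)) :
    CutIso d.TN (d.UN f) S d.B {c | c ∈ d.UN f ∧ d.u c ∈ W} (W ∩ d.B) d.u := by
  have hne : ∀ {c c' : Option ℕ × M}, c ∈ d.UN f → d.u c ∈ W →
      bt d.TN c c' = bt S (d.u c) (d.u c') := by
    intro c c' hc hcW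
    apply d.bt_TN_of_ne
    rintro k ⟨h1, -⟩
    rw [(d.NFc_none hW hc hcW).1] at h1
    cases h1
  have hinj : ∀ c ∈ d.UN f, d.u c ∈ W → ∀ c' ∈ d.UN f, d.u c' ∈ W → d.u c = d.u c' → c = c' := by
    intro c hc hcW c' hc' hcW' h
    obtain ⟨h1, h2⟩ := d.NFc_none hW hc hcW
    obtain ⟨h3, h4⟩ := d.NFc_none hW hc' hcW'
    refine Prod.ext (h1.trans h3.symm) ?_
    rw [← h2, ← h4, h]
  refine ⟨fun c hc => hc.1, fun x hx => hx.2, ⟨?_, ?_, ?_⟩, ⟨?_, ?_⟩, ?_, ?_, ?_⟩
  · intro c hc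
    exact ⟨hc.2, d.u_mem_B hc.1⟩
  · intro c hc c' hc' h
    exact hinj c hc.1 hc.2 c' hc'.1 hc'.2 h
  · rintro x ⟨hxW, hxB⟩
    refine ⟨(none, x), ⟨Or.inl ⟨rfl, hxB, fun k hk => hW k hk x hxW⟩, ?_⟩, d.u_none x⟩
    rw [d.u_none]
    exact hxW
  · rintro a ⟨ha, ha'⟩ b ⟨hb, hb'⟩
    rw [ha', hb']
    exact ⟨fun h => by rw [h], fun h => hinj _ ha.1 ha.2 _ hb.1 hb.2 h⟩
  · intro n R v hv
    rcases Nat.eq_zero_or_pos n with hn | hn
    · subst hn
      exact ((hL 0 (by norm_num) (by norm_num)).false R).elim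
    · have h1 : ¬ ∃ k : ℕ, ∀ i, ((fun i => (v i).1) i).1 = some k := by
        rintro ⟨k, hk⟩
        have h2 := hk ⟨0, hn⟩
        have h3 := (d.NFc_none hW (hv ⟨0, hn⟩).1.1 (hv ⟨0, hn⟩).1.2).1
        simp only at h2
        rw [h3] at h2
        cases h2
      have h4 : (fun i => (v i).2) = fun i => d.u (v i).1 := by
        funext i
        exact (hv i).2
      rw [h4]
      show (if (∃ k : ℕ, ∀ i, ((fun i => (v i).1) i).1 = some k) then _ else _) ↔ _
      rw [if_neg h1]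
  · have h1 := d.rk_le_of_adm (f := f) hL (X := {c | c ∈ d.UN f ∧ d.u c ∈ W}) (X' := W)
      (fun c hc => hc.1) (fun p hp a ha =>
        ⟨fun h => (H p hp a ha).mp h.2, fun h => ⟨(hp.mem a ha).1, (H p hp a ha).mpr h⟩⟩)
    intro h2
    rw [h2, top_le_iff] at h1
    exact hr h1
  · intro h2
    have h1 := rk_B_le (bt S) W d.B
    rw [h2, top_le_iff] at h1
    exact hr h1
  · rintro x ⟨hx, hxW⟩ y ⟨hy, hyW⟩
    constructor
    · intro h g hg hgW
      have hgW' : g ∉ W := fun h' => hgW ⟨h', hg⟩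
      obtain ⟨c, hc, h1 | ⟨k, hk, h1, h2, h3⟩⟩ := d.exists_rowmate f hg
      · have h4 := h c hc (fun h' => hgW' (by rw [← h1.1]; exact h'.2))
        rw [hne hx hxW, hne hy hyW, h1.1] at h4
        exact h4
      · have h4 := h c hc (fun h' => by
          have := (d.NFc_none hW h'.1 h'.2).1
          rw [h2] at this
          cases this)
        rw [hne hx hxW, hne hy hyW, NFc_btSwap (h3 _ (hW k hk _ hxW)),
          NFc_btSwap (h3 _ (hW k hk _ hyW))] at h4
        exact h4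
    · intro h g hg hgW
      rw [hne hx hxW, hne hy hyW]
      exact h _ (d.u_mem_B hg) fun h' => hgW ⟨hg, h'.1⟩

theorem iso_core (hL : Ar2 L) (hk : k ∉ d.R f) :
    CutIso d.TN (d.UN f) S d.B (d.UU f k) (d.U k ∩ d.B) d.u := by
  refine d.NFc_iso hL (W := d.U k) ?_ ?_ (fun p hp a ha => hp.mem_U ha k)
  · intro k' hk' x hx hx'
    have hne : k ≠ k' := fun h => hk (h ▸ hk')
    exact Set.disjoint_left.mp (d.U_disj hne) hx (d.V_sub hk' hx')
  · intro h
    have h1 := d.U_rk k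
    have h2 : rk (bt S) univ (d.U k) ≤ d.t := h1
    rw [h, top_le_iff] at h2
    exact ENat.natCast_ne_top _ h2

theorem iso_rest (hL : Ar2 L) (hk : k ∈ d.R f) :
    CutIso d.TN (d.UN f) S d.B {c | c ∈ d.UU f k ∧ c.1 = none} ((d.U k \ d.V k) ∩ d.B)
      d.u := by
  have hW : ∀ k' ∈ d.R f, ∀ x ∈ d.U k \ d.V k, x ∉ d.V k' := by
    intro k' hk' x hx hx'
    by_cases h : k = k'
    · subst h
      exact hx.2 hx'
    · exact Set.disjoint_left.mp (d.U_disj h) hx.1 (d.V_sub hk' hx')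
  have h1 : {c | c ∈ d.UU f k ∧ c.1 = none} = {c | c ∈ d.UN f ∧ d.u c ∈ d.U k \ d.V k} := by
    ext c
    constructor
    · rintro ⟨⟨h2, h3⟩, h4⟩
      refine ⟨h2, h3, fun h5 => ?_⟩
      have h6 := (d.u_mem_V h2 hk).mp h5
      rw [h4] at h6
      cases h6
    · rintro ⟨h2, h3⟩
      exact ⟨⟨h2, h3.1⟩, (d.NFc_none hW h2 h3).1⟩
  rw [h1]
  refine d.NFc_iso hL hW ?_ ?_
  · have h2 := rk_diff_le (bt S) (subset_univ (d.U k)) (subset_univ (d.V k))
    have h3 : rk (bt S) univ (d.U k) ≤ d.t := d.U_rk k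
    have h4 : rk (bt S) univ (d.V k) = rho (bt S) (d.P k) (d.Q k) := rk_bs (d.rep_of_mem hk).ok
    intro h5
    rw [h5, top_le_iff, h4] at h2
    rcases ENat.add_eq_top.mp h2 with h6 | h6
    · rw [h6, top_le_iff] at h3
      exact ENat.natCast_ne_top _ h3
    · exact ENat.natCast_ne_top _ h6
  · intro p hp a ha
    have h2 := hp.mem_U ha k
    have h3 := hp.mem_V ha hk
    have h4 := d.u_mem_V (hp.mem a ha).1 hk
    rw [mem_sdiff, mem_sdiff, h2, h4, h3]

end Dat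

end Pool.Agent.CW

end

/-! ### formerly `Pool.Agent.CW6.NFe` -/

section

/-!
# CW, module NFe
-/

set_option autoImplicit false
set_option linter.unusedSectionVars false
set_option linter.unusedVariables false

namespace Pool.Agent.CW

open Set Pool.Agent.Helper5 Pool.Agent.Helper5.DU Pool.Agent.Helper6.Str
  Pool.Agent.Helper79.VC Pool.Agent.Helper97.VC Pool.Agent.Helper97.MD Pool.Agent.Helper6.VC
  Pool.Agent.Helper97.LO

open scoped Classical

namespace Dat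

variable {L : FirstOrder.Language.{0, 0}} [∀ n, IsEmpty (L.Functions n)] {M : Type}
  {S : L.Structure M} {δ : Ordinal.{0}} (d : Dat S δ) {f : ℕ → Bool} {k : ℕ}

private theorem NFe_swap {x y w : M} (h : bt S w x = bt S w y) : bt S x w = bt S y w := by
  have h1 := congrArg Prod.fst h
  have h2 := congrArg Prod.snd h
  exact Prod.ext h2 h1

/-- rows of the elements of the new piece -/
private theorem NFe_rowsU (hk : k ∈ d.R f) {c c' : Option ℕ × M} (hc : c ∈ d.D k)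
    (hc' : c' ∈ d.D k) :
    (∀ g ∈ d.UN f, g ∉ d.D k → bt d.TN c g = bt d.TN c' g) ↔
      ∀ g ∈ d.G k, bt S (d.u c) g = bt S (d.u c') g := by
  have hR := d.rep_of_mem hk
  obtain ⟨s, x⟩ := c
  obtain ⟨s', x'⟩ := c'
  obtain ⟨rfl, hx, hxB⟩ : s = some k ∧ x ∈ d.V' k ∧ x ∈ d.B := hc
  obtain ⟨rfl, hx', hxB'⟩ : s' = some k ∧ x' ∈ d.V' k ∧ x' ∈ d.B := hc'
  obtain ⟨hu1, hu2, -⟩ := d.u_some hk hx hxB
  obtain ⟨hu1', hu2', -⟩ := d.u_some hk hx' hxB'
  have hnD : ∀ g ∈ d.UN f, g ∉ d.D k → ∀ x : M,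
      bt d.TN (some k, x) g = bt S (d.u (some k, x)) (d.u g) := by
    intro g hg hgD x
    refine d.bt_TN_of_ne fun j hj => ?_
    have hj1 : k = j := Option.some.inj hj.1
    subst hj1
    rcases d.mem_UN hg with h | ⟨k', _, h1, h2, h3, _⟩
    · rw [h.1] at hj
      exact Option.some_ne_none _ hj.2.symm
    · exact hgD ⟨hj.2, by
        rw [h1] at hj
        have : k' = k := Option.some.inj hj.2
        rw [← this]
        exact h2, h3⟩
  constructor
  · intro h g hg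
    have hgB : g ∈ d.B := hR.inB.2.2 hg
    have hgV : g ∉ d.V k := (hR.rc.1 hg).2
    obtain ⟨c, hcU, hc⟩ := d.exists_rowmate f hgB
    have hcD : c ∉ d.D k := by
      intro hcD
      rcases hc with ⟨_, h1⟩ | ⟨k', hk', h1, h2, _⟩
      · rw [hcD.1] at h1
        exact Option.some_ne_none _ h1
      · rw [hcD.1] at h2
        have : k = k' := Option.some.inj h2
        subst this
        exact hgV h1
    have h3 := h c hcU hcD
    rw [hnD c hcU hcD, hnD c hcU hcD] at h3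
    rcases hc with ⟨h1, _⟩ | ⟨k', hk', h1, h2, h4⟩
    · rw [h1] at h3
      exact h3
    · have hne : k ≠ k' := fun e => hgV (by rw [e]; exact h1)
      have hd := d.V_disj hk hk' hne
      have e1 := h4 (d.u (some k, x)) (Set.disjoint_left.1 hd hu1)
      have e2 := h4 (d.u (some k, x')) (Set.disjoint_left.1 hd hu1')
      have e3 := congrArg Prod.fst e1
      have e4 := congrArg Prod.snd e1
      have e5 := congrArg Prod.fst e2
      have e6 := congrArg Prod.snd e2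
      have e7 := congrArg Prod.fst h3
      have e8 := congrArg Prod.snd h3
      refine Prod.ext ?_ ?_
      · exact e4.symm.trans (e7.trans e6)
      · exact e3.symm.trans (e8.trans e5)
  · intro h g hg hgD
    rw [hnD g hg hgD, hnD g hg hgD]
    have hgV : d.u g ∉ d.V k := by
      intro h1
      rw [d.u_mem_V hg hk] at h1
      rcases d.mem_UN hg with h2 | ⟨k', _, h2, h3, h4, _⟩
      · rw [h2.1] at h1
        exact Option.some_ne_none _ h1.symm
      · rw [h2] at h1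
        have : k' = k := Option.some.inj h1
        subst this
        exact hgD ⟨h2, h3, h4⟩
    obtain ⟨g₀, hg₀, hg₀'⟩ := hR.rc.2 (d.u g) (mem_univ _) hgV
    rw [hg₀' _ hu1, hg₀' _ hu1']
    exact h g₀ hg₀

theorem iso_new (hL : Ar2 L) (hk : k ∈ d.R f) :
    CutIso d.TN (d.UN f) S d.B (d.D k) (d.V' k ∩ d.B) Prod.snd := by
  have hR := d.rep_of_mem hk
  refine ⟨?_, inter_subset_right, ?_, ?_, ?_, ?_, ?_⟩
  · intro c hc
    exact Or.inr ⟨k, hk, hc.1, hc.2.1, hc.2.2⟩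
  · refine ⟨fun c hc => ⟨hc.2.1, hc.2.2⟩, ?_, ?_⟩
    · intro c hc c' hc' h
      exact Prod.ext (hc.1.trans hc'.1.symm) h
    · intro x hx
      exact ⟨(some k, x), ⟨rfl, hx.1, hx.2⟩, rfl⟩
  · constructor
    · rintro a ⟨hc, hx⟩ a' ⟨hc', hx'⟩
      rw [hx, hx']
      constructor
      · intro h
        exact congrArg Prod.snd h
      · intro h
        exact Prod.ext (hc.1.trans hc'.1.symm) h
    · intro n R v hv
      have h1 : ∃ k : ℕ, ∀ i, ((v i).1).1 = some k := ⟨k, fun i => (hv i).1.1⟩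
      have h2 : (fun i => (v i).2) = fun i => ((v i).1).2 := funext fun i => (hv i).2
      have h3 : d.TN.RelMap R (fun i => (v i).1) = S.RelMap R (fun i => ((v i).1).2) := if_pos h1
      rw [h2]
      exact Iff.of_eq h3
  · have h1 : rk (bt d.TN) (d.UN f) (d.D k) ≤ rk (bt S) univ (d.V k) := by
      refine d.rk_le_of_adm hL (fun c hc => Or.inr ⟨k, hk, hc.1, hc.2.1, hc.2.2⟩) ?_
      intro p hp a ha
      rw [← hp.mem_V ha hk]
      constructor
      · intro h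
        exact h.1
      · intro h
        rcases d.mem_UN (hp.mem a ha).1 with h2 | ⟨k', _, h2, h3, h4, _⟩
        · rw [h2.1] at h
          exact absurd h.symm (Option.some_ne_none _)
        · have h5 : k' = k := Option.some.inj (h2.symm.trans h)
          subst h5
          exact ⟨h, h3, h4⟩
    have h2 : rk (bt S) univ (d.V k) = rho (bt S) (d.P k) (d.Q k) := rk_bs hR.ok
    intro h3
    rw [h3, h2] at h1
    exact absurd h1 (by simp)
  · have h1 : rk (bt S) d.B (d.V' k ∩ d.B) ≤ rk (bt S) univ (d.V' k) := rk_B_le _ _ _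
    have h2 : rk (bt S) univ (d.V' k) = rho (bt S) (d.P' k) (d.Q' k) := rk_bs hR.ok'
    intro h3
    rw [h3, h2] at h1
    exact absurd h1 (by simp)
  · intro c hc c' hc'
    rw [d.NFe_rowsU hk hc hc']
    obtain ⟨s, x⟩ := c
    obtain ⟨s', x'⟩ := c'
    obtain ⟨rfl, hx, hxB⟩ : s = some k ∧ x ∈ d.V' k ∧ x ∈ d.B := hc
    obtain ⟨rfl, hx', hxB'⟩ : s' = some k ∧ x' ∈ d.V' k ∧ x' ∈ d.B := hc'
    obtain ⟨-, -, hA⟩ := d.u_some hk hx hxB
    obtain ⟨-, -, hA'⟩ := d.u_some hk hx' hxB'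
    have hE : ∀ a ∈ d.q k, bt S x a.1 = bt S (d.u (some k, x)) a.2 := fun a ha =>
      bt_of_atEq hA (a := (x, d.u (some k, x))) (b := a) (mem_insert _ _)
        (mem_insert_of_mem _ ha)
    have hE' : ∀ a ∈ d.q k, bt S x' a.1 = bt S (d.u (some k, x')) a.2 := fun a ha =>
      bt_of_atEq hA' (a := (x', d.u (some k, x'))) (b := a) (mem_insert _ _)
        (mem_insert_of_mem _ ha)
    show (∀ g ∈ d.G k, bt S (d.u (some k, x)) g = bt S (d.u (some k, x')) g) ↔
      ∀ g ∈ d.B, g ∉ d.V' k ∩ d.B → bt S x g = bt S x' g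
    constructor
    · intro h g hg hgV
      have hgV' : g ∉ d.V' k := fun h1 => hgV ⟨h1, hg⟩
      obtain ⟨g₀, hg₀, hg₀'⟩ := hR.rc'.2 g (mem_univ _) hgV'
      rw [hg₀' x hx, hg₀' x' hx']
      obtain ⟨g₁, hg₁, hq⟩ := hR.mt.1 g₀ hg₀
      rw [hE _ hq, hE' _ hq]
      exact h g₁ hg₁
    · intro h g hg
      obtain ⟨g₀, hg₀, hq⟩ := hR.mt.2 g hg
      have h1 := h g₀ (hR.inB'.2.2 hg₀) (fun h2 => (hR.rc'.1 hg₀).2 h2.1)
      have e1 := hE _ hq
      have e2 := hE' _ hq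
      exact e1.symm.trans (h1.trans e2)

end Dat

end Pool.Agent.CW

end

/-! ### formerly `Pool.Agent.CW6.NFd` -/

section

/-!
# CW, module NFd
-/

set_option autoImplicit false
set_option linter.unusedSectionVars false
set_option linter.unusedVariables false

namespace Pool.Agent.CW

open Set Pool.Agent.Helper5 Pool.Agent.Helper5.DU Pool.Agent.Helper6.Str
  Pool.Agent.Helper79.VC Pool.Agent.Helper97.VC Pool.Agent.Helper97.MD Pool.Agent.Helper6.VC
  Pool.Agent.Helper97.LO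

open scoped Classical

namespace Dat

variable {L : FirstOrder.Language.{0, 0}} [∀ n, IsEmpty (L.Functions n)] {M : Type}
  {S : L.Structure M} {δ : Ordinal.{0}} (d : Dat S δ) {f : ℕ → Bool} {k k' : ℕ}
  {μ : Ordinal.{0}}

theorem UU_disj (h : k ≠ k') : Disjoint (d.UU f k) (d.UU f k') := by
  rw [Set.disjoint_left]
  intro c hc hc'
  exact Set.disjoint_left.mp (d.U_disj h) hc.2 hc'.2

private theorem NFd_jd_UU_iff (hL : Ar2 L) (hk : k ∉ d.R f) (hμ : Gd μ) (hμl : μ ≤ d.lam) :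
    Jd d.TN (d.UN f) μ (d.UU f k) ↔ Jd S univ μ (d.U k) := by
  have hi := d.iso_core hL hk
  obtain ⟨F, hF, η, hη, hX⟩ := d.U_df k
  rw [hi.jd hL hμ Subset.rfl, hi.bij.image_eq]
  exact jd_B hL d.hlam d.clo hF hη hX hμl

private theorem NFd_D (hL : Ar2 L) (hk : k ∈ d.R f) (hμ : Gd μ) (hμl : μ ≤ d.lam) :
    Jd d.TN (d.UN f) μ (d.D k) ↔ Jd S univ μ (d.V' k) := by
  have hr := d.rep_of_mem hk
  have hi := d.iso_new hL hk
  rw [hi.jd hL hμ Subset.rfl, hi.bij.image_eq]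
  refine jd_B hL d.hlam d.clo (F := d.P' k ∪ d.Q' k) (η := Ordinal.omega0) ?_ d.hlam.om
    (dfAt_bs S _ _) hμl
  rw [Finset.coe_union]
  exact union_subset hr.inB'.1 hr.inB'.2.1

theorem jd_UU_lam (hL : Ar2 L) (f : ℕ → Bool) (k : ℕ) :
    Jd d.TN (d.UN f) d.lam (d.UU f k) := by
  by_cases hk : k ∈ d.R f
  · have hr := d.rep_of_mem hk
    have hsub : d.UU f k ⊆ {c | c ∈ d.UU f k ∧ c.1 = none} ∪ d.D k := by
      intro c hc
      rcases d.mem_UN hc.1 with ⟨h1, -⟩ | ⟨k', hk', h1, h2, h3, h4, -⟩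
      · exact Or.inl ⟨hc, h1⟩
      · right
        have hkk : k = k' := by
          by_contra hne
          exact Set.disjoint_left.mp (d.U_disj hne) hc.2 (d.V_sub hk' h4)
        subst hkk
        exact ⟨h1, h2, h3⟩
    refine Jd.mono (Jd.union ?_ ?_) hsub le_rfl
    · have hi := d.iso_rest hL hk
      obtain ⟨F, hF, η, hη, hX⟩ := d.U_df k
      rw [hi.jd hL d.hlam Subset.rfl, hi.bij.image_eq]
      have h1 : Jd S d.B d.lam (d.U k ∩ d.B) :=
        (jd_B hL d.hlam d.clo hF hη hX le_rfl).mpr (d.U_lam k)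
      exact h1.mono (inter_subset_inter_left _ sdiff_subset) le_rfl
    · rw [NFd_D d hL hk d.hlam le_rfl]
      obtain ⟨ζ, hζ, hl⟩ := hr.lv'
      refine jd_of_lv hL d.hlam hζ (subset_univ _) hl ?_
      unfold Dat.V'
      rw [rk_bs hr.ok']
      exact ENat.natCast_ne_top _
  · exact (NFd_jd_UU_iff d hL hk d.hlam le_rfl).mpr (d.U_lam k)

theorem jd_UU_iff (hL : Ar2 L) (hk : k ∉ d.R f) (hμ : Gd μ) (hμl : μ ≤ d.lam) :
    Jd d.TN (d.UN f) μ (d.UU f k) ↔ Jd S univ μ (d.U k) :=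
  NFd_jd_UU_iff d hL hk hμ hμl

theorem not_jd_UU (hL : Ar2 L) (hk : k ∈ d.R f) :
    ¬ Jd d.TN (d.UN f) d.ω' (d.UU f k) := by
  have hr := d.rep_of_mem hk
  intro h
  refine hr.big' ((NFd_D d hL hk d.hω d.hωl.le).mp (h.mono ?_ le_rfl))
  intro c hc
  refine ⟨Or.inr ⟨k, hk, hc⟩, ?_⟩
  obtain ⟨o, x⟩ := c
  obtain ⟨h1, h2, h3⟩ := hc
  have h1' : o = some k := h1
  subst h1'
  exact d.V_sub hk (d.u_some hk h2 h3).1

end Dat

end Pool.Agent.CW

end
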