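import Pool.Agent.CW6.GC

/-!
# Clique-width, width and joins

Merged file (to shorten the import chain): contents, unchanged, of
`Pool.Agent.CW6.WW`, `Pool.Agent.CW6.PP`, `Pool.Agent.CW6.JA`, `Pool.Agent.CW6.JB`, `Pool.Agent.CW6.QB`.
-/

/-! ### formerly `Pool.Agent.CW6.WW` -/

section

/-!
# CW, module WW
-/

set_option autoImplicit false
set_option linter.unusedSectionVars false
set_option linter.unusedVariables false

namespace Pool.Agent.CW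

open Set Pool.Agent.Helper5 Pool.Agent.Helper5.DU Pool.Agent.Helper6.Str
  Pool.Agent.Helper79.VC Pool.Agent.Helper97.VC Pool.Agent.Helper97.MD Pool.Agent.Helper6.VC
  Pool.Agent.Helper97.LO

open scoped Classical

namespace Dat

variable {L : FirstOrder.Language.{0, 0}} [∀ n, IsEmpty (L.Functions n)] {M : Type}
  {S : L.Structure M} {δ : Ordinal.{0}} {d : Dat S δ} {f : ℕ → Bool}
  {p₀ p : Set ((Option ℕ × M) × M)} {CP CQ P Q : Finset (Option ℕ × M)} {P' Q' : Finset M}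

private theorem WW_mtB {β : Ordinal.{0}} (hp : d.Adm f β p) (hP : Mt p P P') :
    (P' : Set M) ⊆ d.B := by
  intro y hy
  obtain ⟨x, _, hxy⟩ := hP.2 y (by exact_mod_cast hy)
  exact (hp.mem _ hxy).2

private theorem WW_not_mem_R {m : ℕ} (h : ¬ Jd S univ d.ω' (d.U m)) : m ∉ d.R f := by
  rintro ⟨n, _, hn⟩
  exact h (hn.1.mono subset_rfl (d.hζω (n + 1)).le)

/-- the unreplaced elements -/
private theorem WW_none {m : ℕ} (hm : m ∉ d.R f) {c : Option ℕ × M} (hc : c ∈ d.UN f)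
    (hu : d.u c ∈ d.U m) : c = (none, d.u c) := by
  rcases d.mem_UN hc with ⟨h1, h2, _, _⟩ | ⟨k, hk, h1, _, _, h4, _, _⟩
  · obtain ⟨c1, c2⟩ := c
    simp only at h1 h2
    rw [h2, h1]
  · exfalso
    have hUk : d.u c ∈ d.U k := d.V_sub hk h4
    by_cases hkm : k = m
    · exact hm (hkm ▸ hk)
    · exact Set.disjoint_left.mp (d.U_disj hkm) hUk hu

private theorem WW_mem {m : ℕ} (hL : Ar2 L) (hm : m ∉ d.R f)
    (hp : d.Adm f (Ordinal.omega0 + 1) p) (hP : Mt p P P') (hQ : Mt p Q Q')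
    {c : Option ℕ × M} (hc : c ∈ d.UN f) (hu : d.u c ∈ d.U m)
    (hcV : d.u c ∈ Bs (bt S) univ P' Q') : c ∈ Bs (bt d.TN) (d.UN f) P Q := by
  have hcn := WW_none hm hc hu
  have hom : Ordinal.omega0 < d.lam := d.hlam.om
  have hadm : d.Adm f Ordinal.omega0 p := hp.mono le_self_add
  have hadm2 : d.Adm f Ordinal.omega0 (insert (((none : Option ℕ), d.u c), d.u c) p) :=
    hadm.ident (by rw [← hcn]; exact hc)
  have hb := hadm2.bfr_univ hL hom
  rw [← hcn] at hb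
  exact (mem_bs_iff hc (mem_univ _) hb hP hQ).mpr hcV

/-- (W) -/
theorem lemma_W (hL : Ar2 L) (hPar : d.Par f p₀ CP CQ)
    (hp : d.Adm f (Ordinal.omega0 + 1) p) (hpp : p₀ ⊆ p) (hP : Mt p P P') (hQ : Mt p Q Q')
    (hOk : Ok (bt d.TN) (d.UN f) P Q)
    (hsub : Bs (bt d.TN) (d.UN f) P Q ⊆ Bs (bt d.TN) (d.UN f) CP CQ)
    (hlam : Jd d.TN (d.UN f) d.lam (Bs (bt d.TN) (d.UN f) P Q)) :
    Ok (bt S) univ P' Q' ∧ Bs (bt S) univ P' Q' ⊆ Bs (bt S) univ d.PX d.QX ∧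
      TT S (Bs (bt S) univ P' Q') ∧ rho (bt S) P' Q' = rho (bt d.TN) P Q := by
  have hgl := d.hlam
  have hone : (1 : Ordinal.{0}) < d.lam := lt_trans Ordinal.one_lt_omega0 hgl.om
  have hom1 : Ordinal.omega0 + 1 < d.lam := hgl.add _ hgl.om _ hone
  have hb := hp.bfr_univ hL hom1
  have hOk' : Ok (bt S) univ P' Q' :=
    (ok_iff hb hP hQ hOk.left hOk.right (subset_univ _) (subset_univ _)).mp hOk
  have hsub' : Bs (bt S) univ P' Q' ⊆ Bs (bt S) univ d.PX d.QX :=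
    (bs_subset_iff hb hP hQ (hPar.mtP.mono hpp) (hPar.mtQ.mono hpp) hOk.left
      (subset_univ _)).mp hsub
  refine ⟨hOk', hsub', ?_, (rho_of_atEq (hp.atEq hL) hP hQ).symm⟩
  by_contra hTT
  have hwil : Wil S (Bs (bt S) univ P' Q') := by
    refine ⟨dfb_bs S P' Q', ?_, hTT⟩
    rw [rk_bs hOk']
    exact ENat.natCast_ne_top _
  obtain ⟨ζ', hζ', k, hcov⟩ := hlam
  have hω4 : ζ' + Ordinal.omega0 + Ordinal.omega0 + Ordinal.omega0 + Ordinal.omega0 < d.lam :=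
    hgl.add _ (hgl.add _ (hgl.add _ (hgl.add _ hζ' _ hgl.om) _ hgl.om) _ hgl.om) _ hgl.om
  obtain ⟨κ, hκ⟩ : ∃ κ, κ = ζ' + Ordinal.omega0 + Ordinal.omega0 + Ordinal.omega0 +
      Ordinal.omega0 := ⟨_, rfl⟩
  rw [← hκ] at hω4
  have hκ1 : κ + 1 < d.lam := hgl.add _ hω4 _ hone
  have hmax : max (κ + 1) d.ω' < d.lam := max_lt hκ1 d.hωl
  have hPB := WW_mtB hp hP
  have hQB := WW_mtB hp hQ
  obtain ⟨P₁, Q₁, hP₁, hQ₁, hbig, hV₁, hn⟩ := d.wild P' Q' hPB hQB hOk' hsub' hwil _ hmax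
  obtain ⟨m, hm⟩ := d.T_max P₁ Q₁ hP₁ hQ₁ hbig
  -- the part outside of the core is small
  have haω : d.a < d.ω' := by
    have ho := d.ords
    exact ho.1.trans (ho.2.1.trans (ho.2.2.1.trans (ho.2.2.2.1.trans ho.2.2.2.2.1)))
  have hout : Jd S univ (max (κ + 1) d.ω') (Bs (bt S) univ P₁ Q₁ \ d.U m) := by
    refine (jd_of_covS (d.T_cov m) (haω.trans_le (le_max_right _ _))).mono ?_ le_rfl
    intro x hx
    exact ⟨hm hx.1, hx.2⟩
  have hin : ¬ Jd S univ (max (κ + 1) d.ω') (Bs (bt S) univ P₁ Q₁ ∩ d.U m) := by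
    intro h
    apply hn
    refine (h.union hout).mono ?_ le_rfl
    intro x hx
    by_cases hxU : x ∈ d.U m
    · exact Or.inl ⟨hx, hxU⟩
    · exact Or.inr ⟨hx, hxU⟩
  have hU : ¬ Jd S univ d.ω' (d.U m) := fun h =>
    hin (h.mono inter_subset_right (le_max_right _ _))
  have hmR : m ∉ d.R f := WW_not_mem_R hU
  -- the copy of the part inside of the core
  have hiso := d.iso_core (f := f) hL hmR
  obtain ⟨Z, hZdef⟩ : ∃ Z : Set (Option ℕ × M),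
      Z = {c | c ∈ d.UU f m ∧ d.u c ∈ Bs (bt S) univ P₁ Q₁} := ⟨_, rfl⟩
  have hZU : Z ⊆ d.UU f m := by
    rw [hZdef]
    exact fun c hc => hc.1
  have hZB : Z ⊆ Bs (bt d.TN) (d.UN f) P Q := by
    rw [hZdef]
    intro c hc
    exact WW_mem hL hmR hp hP hQ hc.1.1 hc.1.2 (hV₁ hc.2)
  have himg : d.u '' Z = (Bs (bt S) univ P₁ Q₁ ∩ d.U m) ∩ d.B := by
    rw [hZdef]
    ext x
    constructor
    · rintro ⟨c, hc, rfl⟩
      exact ⟨⟨hc.2, hc.1.2⟩, d.u_mem_B hc.1.1⟩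
    · rintro ⟨⟨h1, h2⟩, h3⟩
      obtain ⟨c, hc, hcx⟩ := hiso.bij.surjOn ⟨h2, h3⟩
      exact ⟨c, ⟨hc, by rw [hcx]; exact h1⟩, hcx⟩
  obtain ⟨k', hk'⟩ := hiso.covS hL hZU (hcov.mono hZB le_rfl le_rfl)
  rw [himg, ← hκ] at hk'
  -- definability
  obtain ⟨F, hF, η, hη, hdf⟩ := d.U_df m
  have hdf1 : DfAt S (P₁ ∪ Q₁ ∪ F) (max Ordinal.omega0 η) (Bs (bt S) univ P₁ Q₁) :=
    (dfAt_bs S P₁ Q₁).mono Finset.subset_union_left (le_max_left _ _)
  have hdf2 : DfAt S (P₁ ∪ Q₁ ∪ F) (max Ordinal.omega0 η) (d.U m) :=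
    DfAt.mono hdf Finset.subset_union_right (le_max_right _ _)
  have hFB : ((P₁ ∪ Q₁ ∪ F : Finset M) : Set M) ⊆ d.B := by
    rw [Finset.coe_union, Finset.coe_union]
    exact union_subset (union_subset hP₁ hQ₁) hF
  have hη' : max Ordinal.omega0 η < d.lam := max_lt hgl.om hη
  have hcovM : CovS S univ (Bs (bt S) univ P₁ Q₁ ∩ d.U m) k' κ :=
    (covS_B hL hgl d.clo hFB hη' (hdf1.inter hdf2) hω4).mp hk'
  exact hin ((jd_of_covS hcovM (lt_add_one κ)).mono subset_rfl (le_max_left _ _))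

end Dat

end Pool.Agent.CW

end

/-! ### formerly `Pool.Agent.CW6.PP` -/

section

/-!
# CW, module PP
-/

set_option autoImplicit false
set_option linter.unusedSectionVars false
set_option linter.unusedVariables false

namespace Pool.Agent.CW

open Set Pool.Agent.Helper5 Pool.Agent.Helper5.DU Pool.Agent.Helper6.Str
  Pool.Agent.Helper79.VC Pool.Agent.Helper97.VC Pool.Agent.Helper97.MD Pool.Agent.Helper6.VC
  Pool.Agent.Helper97.LO

open scoped Classical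

namespace Dat

variable {L : FirstOrder.Language.{0, 0}} [∀ n, IsEmpty (L.Functions n)] {M : Type}
  {S : L.Structure M} {δ : Ordinal.{0}} {d : Dat S δ} {f : ℕ → Bool}
  {p₀ p : Set ((Option ℕ × M) × M)} {CP CQ P Q : Finset (Option ℕ × M)}
  {Z : Set (Option ℕ × M)}

private theorem PP_a₁_lt (d : Dat S δ) : d.a₁ < d.lam :=
  d.hab.trans (d.hbz.trans (d.hzζ.trans ((d.hζω 0).trans d.hωl)))

private theorem PP_sub (hPar : d.Par f p₀ CP CQ) :
    (CP : Set (Option ℕ × M)) ⊆ d.UN f ∧ (CQ : Set (Option ℕ × M)) ⊆ d.UN f := by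
  refine ⟨fun x hx => ?_, fun x hx => ?_⟩
  · obtain ⟨y, -, hy⟩ := hPar.mtP.1 x hx
    exact (hPar.adm.mem _ hy).1
  · obtain ⟨y, -, hy⟩ := hPar.mtQ.1 x hx
    exact (hPar.adm.mem _ hy).1

/-- (P1) -/
theorem lv_of_low (hL : Ar2 L) (hPar : d.Par f p₀ CP CQ) (hOk : Ok (bt d.TN) (d.UN f) P Q)
    (hsub : Bs (bt d.TN) (d.UN f) P Q ⊆ Bs (bt d.TN) (d.UN f) CP CQ)
    (hlam : Jd d.TN (d.UN f) d.lam (Bs (bt d.TN) (d.UN f) P Q))
    (hr : rho (bt d.TN) P Q < d.t) : Lv d.TN (d.UN f) (Bs (bt d.TN) (d.UN f) P Q) d.a := by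
  obtain ⟨haa, -, -, -, -, -, hlom, hG⟩ := d.ords
  have hlamlt : d.a₁ < d.lam := PP_a₁_lt d
  obtain ⟨p', P', Q', hpp, hadm, hP, hQ, -, -⟩ := hPar.adm.ext2 P Q hOk.left hOk.right
  have h1 : Ordinal.omega0 + 1 ≤ d.a₁ + Ordinal.omega0 + Ordinal.omega0 := by
    have h2 : Ordinal.omega0 + 1 ≤ d.a₁ := by
      rw [← Order.succ_eq_add_one]
      exact Order.succ_le_of_lt hG.om
    exact h2.trans ((le_self_add).trans le_self_add)
  obtain ⟨hOk', hsub', htt, hrho⟩ :=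
    lemma_W hL hPar (hadm.mono h1) hpp hP hQ hOk hsub hlam
  have hlow := d.cb.low P' Q' hOk' hsub' htt (by rw [hrho]; exact hr)
  have hup := gd_up hG haa
  have hup1 : up d.a < d.a₁ :=
    lt_of_le_of_lt ((le_self_add).trans le_self_add) hup
  have hup2 : up d.a ≤ d.a₁ + Ordinal.omega0 + Ordinal.omega0 :=
    hup1.le.trans ((le_self_add).trans le_self_add)
  have hb := (hadm.mono hup2).bfr_univ hL (hup1.trans hlamlt)
  exact (lv_iff hL (haa.trans hG.lt) hb hOk hOk' hP hQ).2 hlow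

theorem le_rk_N (hL : Ar2 L) (hPar : d.Par f p₀ CP CQ)
    (hZ : Z ⊆ Bs (bt d.TN) (d.UN f) CP CQ) (hlam : Jd d.TN (d.UN f) d.lam Z)
    (hn : ¬ Jd d.TN (d.UN f) d.a₁ Z) : (d.t : ℕ∞) ≤ rk (bt d.TN) (d.UN f) Z := by
  by_contra hlt
  rw [not_le] at hlt
  have hZU : Z ⊆ d.UN f := hZ.trans (bs_subset (PP_sub hPar).1)
  obtain ⟨P, Q, hR⟩ := exists_refs (ne_top_of_lt hlt)
  have hr : rho (bt d.TN) P Q < d.t := by
    have := hR.eq
    rw [this] at hlt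
    exact_mod_cast hlt
  refine hn (jd_of_covS (k := max 1 d.t) (covS_of_refs hZU hR
    (hr.le.trans (le_max_right _ _)) (lt_of_lt_of_le one_pos (le_max_left _ _)) ?_) d.haa)
  intro F hF
  obtain ⟨hOk, hs, hrr, -, -⟩ := hR.bs hZU hF
  exact lv_of_low hL hPar hOk (hs.trans hZ) (hlam.mono hs le_rfl) (by rw [hrr]; exact hr)

theorem Par.sub (hPar : d.Par f p₀ CP CQ) :
    (CP : Set (Option ℕ × M)) ⊆ d.UN f ∧ (CQ : Set (Option ℕ × M)) ⊆ d.UN f := PP_sub hPar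

/-- the cores are contained in `X` -/
theorem UU_sub_X (hL : Ar2 L) (hPar : d.Par f p₀ CP CQ) (k : ℕ) :
    d.UU f k ⊆ Bs (bt d.TN) (d.UN f) CP CQ := by
  intro c hc
  have hG : Gd d.a₁ := d.cls₁.gd
  have h1 : Ordinal.omega0 + 1 ≤
      d.a₁ + Ordinal.omega0 + Ordinal.omega0 + Ordinal.omega0 := by
    have h2 : Ordinal.omega0 + 1 ≤ d.a₁ := by
      rw [← Order.succ_eq_add_one]
      exact Order.succ_le_of_lt hG.om
    exact h2.trans ((le_self_add).trans ((le_self_add).trans le_self_add))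
  obtain ⟨x, hxB, hadm⟩ := (hPar.adm.mono h1).forth hc.1
  have hxU : x ∈ d.U k := (hadm.mem_U (mem_insert _ _) k).1 hc.2
  have hxX : x ∈ Bs (bt S) univ d.PX d.QX := d.T_sub k hxU.1
  have hb := hadm.bfr_univ hL (hG.om.trans (PP_a₁_lt d))
  exact (mem_bs_iff hc.1 (mem_univ x) hb hPar.mtP hPar.mtQ).2 hxX

end Dat

end Pool.Agent.CW

end

/-! ### formerly `Pool.Agent.CW6.JA` -/

section

/-!
# CW, module JA
-/

set_option autoImplicit false
set_option linter.unusedSectionVars false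
set_option linter.unusedVariables false

namespace Pool.Agent.CW

open Set Pool.Agent.Helper5 Pool.Agent.Helper5.DU Pool.Agent.Helper6.Str
  Pool.Agent.Helper79.VC Pool.Agent.Helper97.VC Pool.Agent.Helper97.MD Pool.Agent.Helper6.VC
  Pool.Agent.Helper97.LO

open scoped Classical

namespace Dat

variable {L : FirstOrder.Language.{0, 0}} [∀ n, IsEmpty (L.Functions n)] {M : Type}
  {S : L.Structure M} {δ : Ordinal.{0}} {d : Dat S δ} {f : ℕ → Bool}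
  {p₀ : Set ((Option ℕ × M) × M)} {CP CQ P Q : Finset (Option ℕ × M)}

/-- the image of a big basic set -/
private theorem JA_big (hL : Ar2 L) (hPar : d.Par f p₀ CP CQ)
    {p : Set ((Option ℕ × M) × M)} (hp : d.Adm f d.a₁ p) (hpp : p₀ ⊆ p) {P' Q' : Finset M}
    (hP : Mt p P P') (hQ : Mt p Q Q') (hN : d.Nice f CP CQ P Q)
    (hns : ¬ Jd d.TN (d.UN f) d.a₁ (Bs (bt d.TN) (d.UN f) P Q)) :
    Big S (Bs (bt S) univ d.PX d.QX) d.t d.a₁ P' Q' := by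
  obtain ⟨h1, h2, h3, h4, h5, h6, hl, hg⟩ := ords (d := d)
  have hal : d.a₁ < d.lam := h2.trans (h3.trans (h4.trans (h5.trans h6)))
  have hω1 : Ordinal.omega0 + 1 ≤ d.a₁ := Order.add_one_le_of_lt hg.om
  obtain ⟨k1, k2, k3, k4⟩ := lemma_W hL hPar (hp.mono hω1) hpp hP hQ hN.ok hN.sub hN.lam
  refine ⟨k1, k2, k3, k4.trans hN.rho, fun hj => hns ?_⟩
  exact (jd_bs_iff hL hg (hp.bfr_univ hL hal) hP hQ hN.ok.left (subset_univ _)).2 hj

/-- (J) -/
theorem exists_j (hL : Ar2 L) (hPar : d.Par f p₀ CP CQ) (hV : d.BigN f CP CQ P Q) :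
    ∃ j, ∀ P₁ Q₁ : Finset (Option ℕ × M), d.Nice f CP CQ P₁ Q₁ →
      Bs (bt d.TN) (d.UN f) P Q ⊆ Bs (bt d.TN) (d.UN f) P₁ Q₁ →
      CovS d.TN (d.UN f) (Bs (bt d.TN) (d.UN f) P₁ Q₁ \ d.UU f j) (d.n j) d.a := by
  obtain ⟨h1, h2, h3, h4, h5, h6, hl, hg⟩ := ords (d := d)
  have hal : d.a₁ < d.lam := h2.trans (h3.trans (h4.trans (h5.trans h6)))
  have hω1 : Ordinal.omega0 + 1 ≤ d.a₁ := Order.add_one_le_of_lt hg.om
  obtain ⟨p', P', Q', hpp, hA, hP, hQ, hPB, hQB⟩ :=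
    hPar.adm.ext2 P Q hV.nice.ok.left hV.nice.ok.right
  have hle : ∀ x : Ordinal.{0}, x ≤ x + Ordinal.omega0 := fun x => le_self_add
  have hB := JA_big hL hPar (hA.mono ((hle _).trans (hle _))) hpp hP hQ hV.nice hV.not_small
  obtain ⟨j, hj⟩ := d.T_max P' Q' hPB hQB hB
  refine ⟨j, fun P₁ Q₁ hN hs => ?_⟩
  obtain ⟨p₂, P₂, Q₂, hpp₂, hA₂, hP₂, hQ₂, hPB₂, hQB₂⟩ := hA.ext2 P₁ Q₁ hN.ok.left hN.ok.right
  have hns : ¬ Jd d.TN (d.UN f) d.a₁ (Bs (bt d.TN) (d.UN f) P₁ Q₁) := fun h =>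
    hV.not_small (h.mono hs le_rfl)
  have hB₂ := JA_big hL hPar (hA₂.mono (hle _)) (hpp.trans hpp₂) hP₂ hQ₂ hN hns
  obtain ⟨j', hj'⟩ := d.T_max P₂ Q₂ hPB₂ hQB₂ hB₂
  have hs' : Bs (bt S) univ P' Q' ⊆ Bs (bt S) univ P₂ Q₂ :=
    bs_subset_fwd (((hA₂.mono (hle _)).bfr_univ hL hal).mono hω1) (hP.mono hpp₂)
      (hQ.mono hpp₂) hP₂ hQ₂ (subset_univ _) hs
  have hjj : j' = j := by
    by_contra hne
    refine hB.not_small (Jd.mono (jd_of_covS (d.T_inter j j' (fun h => hne h.symm)) h1) ?_ le_rfl)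
    exact subset_inter hj (hs'.trans hj')
  subst hjj
  intro F hF
  have hFU : (F : Set (Option ℕ × M)) ⊆ d.UN f := fun x hx => bs_subset hN.ok.left (hF hx).1
  obtain ⟨q, F', hq, hF'B, hqF, hqm, hAq⟩ := hA₂.forth_fin F hFU
  have hb := hAq.bfr_univ hL hal
  have hlt := gd_up hg h1
  rw [cov_iff hL (h1.trans (hal.trans hl)) (hb.mono ((hle _).trans hlt.le)) hFU
    (subset_univ _) (hqF.mono subset_union_right)]
  refine d.T_cov j' F' fun x' hx' => ?_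
  obtain ⟨x, hx, hxx⟩ := hqF.2 x' hx'
  have hxU : x ∈ d.UN f := hFU hx
  have hm : x' ∈ Bs (bt S) univ P₂ Q₂ :=
    (mem_bs_iff hxU (mem_univ x') ((hb.anti (by
      intro y hy
      rcases hy with rfl | hy
      · exact Or.inr hxx
      · exact hy)).mono hg.om.le) (hP₂.mono subset_union_left)
      (hQ₂.mono subset_union_left)).1 (hF hx).1
  refine ⟨hj' hm, fun hU => (hF hx).2 ⟨hxU, ?_⟩⟩
  exact (hAq.mem_U (Or.inr hxx) j').2 hU

end Dat

end Pool.Agent.CW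

end

/-! ### formerly `Pool.Agent.CW6.JB` -/

section

/-!
# CW, module JB
-/

set_option autoImplicit false
set_option linter.unusedSectionVars false
set_option linter.unusedVariables false

namespace Pool.Agent.CW

open Set Pool.Agent.Helper5 Pool.Agent.Helper5.DU Pool.Agent.Helper6.Str
  Pool.Agent.Helper79.VC Pool.Agent.Helper97.VC Pool.Agent.Helper97.MD Pool.Agent.Helper6.VC
  Pool.Agent.Helper97.LO

open scoped Classical

namespace Dat

variable {L : FirstOrder.Language.{0, 0}} [∀ n, IsEmpty (L.Functions n)] {M : Type}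
  {S : L.Structure M} {δ : Ordinal.{0}} {d : Dat S δ} {f : ℕ → Bool}
  {p₀ : Set ((Option ℕ × M) × M)} {CP CQ P Q : Finset (Option ℕ × M)}
  {T₀ : Set (Option ℕ × M)}

/-- extension inside a cut of rank at most `t` -/
theorem nice_ext (hL : Ar2 L) (hPar : d.Par f p₀ CP CQ) (hV : d.BigN f CP CQ P Q)
    (hT : Bs (bt d.TN) (d.UN f) P Q ⊆ T₀) (hTX : T₀ ⊆ Bs (bt d.TN) (d.UN f) CP CQ)
    (hTr : rk (bt d.TN) (d.UN f) T₀ ≤ d.t) (hTl : Jd d.TN (d.UN f) d.lam T₀)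
    (F : Finset (Option ℕ × M)) (hF : (F : Set (Option ℕ × M)) ⊆ T₀) :
    ∃ P₁ Q₁ : Finset (Option ℕ × M), d.Nice f CP CQ P₁ Q₁ ∧
      Bs (bt d.TN) (d.UN f) P Q ⊆ Bs (bt d.TN) (d.UN f) P₁ Q₁ ∧
      (F : Set (Option ℕ × M)) ⊆ Bs (bt d.TN) (d.UN f) P₁ Q₁ := by
  obtain ⟨hCP, hCQ⟩ := Par.sub hPar
  have hTU : T₀ ⊆ d.UN f := hTX.trans (bs_subset hCP)
  have hne : rk (bt d.TN) (d.UN f) T₀ ≠ ⊤ := by
    intro h
    rw [h] at hTr
    exact absurd hTr (not_le.2 (ENat.natCast_lt_top _))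
  obtain ⟨P₀, Q₀, hR⟩ := exists_refs hne
  obtain ⟨h1, h2, h3, h4, h5⟩ := ext0 hV.nice.ok hV.nice.rho hTU hT hTr
    (fun Z hZ1 hZ2 _ => le_rk_N hL hPar (hZ2.trans hTX) (Jd.mono hTl hZ2 le_rfl)
      (fun h => hV.not_small (Jd.mono h hZ1 le_rfl))) hR hF
  exact ⟨_, _, ⟨h1, h5.trans hTX, Jd.mono hTl h5 le_rfl, h2⟩, h3, h4⟩

theorem JB_bs_rk (hV : d.BigN f CP CQ P Q) :
    rk (bt d.TN) (d.UN f) (Bs (bt d.TN) (d.UN f) P Q) ≤ d.t := by
  rw [rk_bs hV.nice.ok, hV.nice.rho]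

theorem JB_union (hL : Ar2 L) (hPar : d.Par f p₀ CP CQ) (hV : d.BigN f CP CQ P Q)
    (F : Finset (Option ℕ × M)) : (F : Set (Option ℕ × M)) ⊆ d.cl f CP CQ P Q →
    ∃ T₀ : Set (Option ℕ × M), Bs (bt d.TN) (d.UN f) P Q ⊆ T₀ ∧
      T₀ ⊆ Bs (bt d.TN) (d.UN f) CP CQ ∧ rk (bt d.TN) (d.UN f) T₀ ≤ d.t ∧
      Jd d.TN (d.UN f) d.lam T₀ ∧ (F : Set (Option ℕ × M)) ⊆ T₀ := by
  induction F using Finset.induction_on with
  | empty =>
    intro _
    exact ⟨_, le_rfl, hV.nice.sub, JB_bs_rk hV, hV.nice.lam, by simp⟩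
  | insert x F _ ih =>
    intro hF
    rw [Finset.coe_insert, insert_subset_iff] at hF
    obtain ⟨T₀, h1, h2, h3, h4, h5⟩ := ih hF.2
    obtain ⟨P₁, Q₁, hN, hsub, hx⟩ := hF.1
    refine ⟨T₀ ∪ Bs (bt d.TN) (d.UN f) P₁ Q₁, h1.trans subset_union_left,
      union_subset h2 hN.sub, ?_, Jd.union h4 hN.lam, ?_⟩
    · refine rk_union_le_of h3 (by rw [rk_bs hN.ok, hN.rho]) ?_
      refine le_rk_N hL hPar (inter_subset_left.trans h2)
        (Jd.mono h4 inter_subset_left le_rfl) ?_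
      exact fun h => hV.not_small (Jd.mono h (subset_inter h1 hsub) le_rfl)
    · rw [Finset.coe_insert, insert_subset_iff]
      exact ⟨Or.inr hx, h5.trans subset_union_left⟩

theorem cl_finite (hL : Ar2 L) (hPar : d.Par f p₀ CP CQ) (hV : d.BigN f CP CQ P Q)
    (F : Finset (Option ℕ × M)) (hF : (F : Set (Option ℕ × M)) ⊆ d.cl f CP CQ P Q) :
    ∃ P₁ Q₁ : Finset (Option ℕ × M), d.Nice f CP CQ P₁ Q₁ ∧
      Bs (bt d.TN) (d.UN f) P Q ⊆ Bs (bt d.TN) (d.UN f) P₁ Q₁ ∧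
      (F : Set (Option ℕ × M)) ⊆ Bs (bt d.TN) (d.UN f) P₁ Q₁ := by
  obtain ⟨T₀, h1, h2, h3, h4, h5⟩ := JB_union hL hPar hV F hF
  exact nice_ext hL hPar hV h1 h2 h3 h4 F h5

/-- the class of a big basic set is, up to small sets, a core -/
theorem exists_core (hL : Ar2 L) (hPar : d.Par f p₀ CP CQ) (hV : d.BigN f CP CQ P Q) :
    ∃ j, ¬ Disjoint (Bs (bt d.TN) (d.UN f) P Q) (d.UU f j) ∧
      ∀ μ, d.a₁ ≤ μ → (Jd d.TN (d.UN f) μ (d.cl f CP CQ P Q) ↔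
        Jd d.TN (d.UN f) μ (d.UU f j)) := by
  obtain ⟨j, hj⟩ := exists_j hL hPar hV
  have hsm : Jd d.TN (d.UN f) d.a₁ (Bs (bt d.TN) (d.UN f) P Q \ d.UU f j) :=
    jd_of_covS (hj P Q hV.nice le_rfl) d.haa
  have hint : ¬ Jd d.TN (d.UN f) d.a₁ (Bs (bt d.TN) (d.UN f) P Q ∩ d.UU f j) := by
    intro h
    apply hV.not_small
    have := Jd.union h hsm
    rwa [inter_union_sdiff] at this
  refine ⟨j, ?_, ?_⟩
  · intro hdis
    apply hV.not_small
    rwa [hdis.sdiff_eq_left] at hsm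
  · intro μ hμ
    have hcl : Jd d.TN (d.UN f) μ (d.cl f CP CQ P Q \ d.UU f j) := by
      have hc : CovS d.TN (d.UN f) (d.cl f CP CQ P Q \ d.UU f j) (d.n j) d.a := by
        intro F hF
        obtain ⟨P₁, Q₁, hN, hsub, hF1⟩ := cl_finite hL hPar hV F
          (hF.trans sdiff_subset)
        exact hj P₁ Q₁ hN hsub F fun x hx => ⟨hF1 hx, (hF hx).2⟩
      exact Jd.mono (jd_of_covS hc d.haa) le_rfl hμ
    have hsub : d.UU f j ⊆ d.cl f CP CQ P Q := by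
      intro x hx
      have hrk : (d.t : ℕ∞) ≤ rk (bt d.TN) (d.UN f)
          (Bs (bt d.TN) (d.UN f) P Q ∩ d.UU f j) :=
        le_rk_N hL hPar (inter_subset_left.trans hV.nice.sub)
          (Jd.mono hV.nice.lam inter_subset_left le_rfl) hint
      have hun := rk_union_le_of (JB_bs_rk hV) (rk_UU d hL f j) hrk
      obtain ⟨P₁, Q₁, hN, h1, h2⟩ := nice_ext hL hPar hV
        (T₀ := Bs (bt d.TN) (d.UN f) P Q ∪ d.UU f j) subset_union_left
        (union_subset hV.nice.sub (UU_sub_X hL hPar j)) hun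
        (Jd.union hV.nice.lam (jd_UU_lam d hL f j)) {x}
        (by
          intro y hy
          rw [Finset.coe_singleton, mem_singleton_iff] at hy
          exact Or.inr (hy ▸ hx))
      exact ⟨P₁, Q₁, hN, h1, h2 (by simp)⟩
    constructor
    · exact fun h => Jd.mono h hsub le_rfl
    · intro h
      refine Jd.mono (Jd.union h hcl) ?_ le_rfl
      rw [union_sdiff_self]
      exact subset_union_right

end Dat

end Pool.Agent.CW

end

/-! ### formerly `Pool.Agent.CW6.QB` -/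

section

/-!
# CW, module QB
-/

set_option autoImplicit false
set_option linter.unusedSectionVars false
set_option linter.unusedVariables false

namespace Pool.Agent.CW

open Set Pool.Agent.Helper5 Pool.Agent.Helper5.DU Pool.Agent.Helper6.Str
  Pool.Agent.Helper79.VC Pool.Agent.Helper97.VC Pool.Agent.Helper97.MD Pool.Agent.Helper6.VC
  Pool.Agent.Helper97.LO

open scoped Classical

namespace Dat

variable {L : FirstOrder.Language.{0, 0}} [∀ n, IsEmpty (L.Functions n)] {M : Type}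
  {S : L.Structure M} {δ : Ordinal.{0}} {d : Dat S δ} {f : ℕ → Bool} {n : ℕ}
  {p₀ : Set ((Option ℕ × M) × M)} {CP CQ : Finset (Option ℕ × M)}

private theorem QB_le (d : Dat S δ) (n : ℕ) : d.a₁ ≤ d.ζ n := by
  induction n with
  | zero => exact (d.hab.trans (d.hbz.trans d.hzζ)).le
  | succ n ih => exact ih.trans (d.hζs n).le

/-- (B4) -/
theorem true_of_qq (hL : Ar2 L) (hPar : d.Par f p₀ CP CQ) (h : d.QQ f CP CQ n) :
    f n = true := by
  obtain ⟨P, Q, hB, h1, h2⟩ := h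
  obtain ⟨j, -, hj⟩ := exists_core hL hPar hB
  have h3 := (hj _ (QB_le d (n + 1))).1 h1
  have h4 : ¬ Jd d.TN (d.UN f) (d.ζ n) (d.UU f j) := fun hc => h2 ((hj _ (QB_le d n)).2 hc)
  have hjR : j ∉ d.R f := fun hc =>
    not_jd_UU d hL hc (h3.mono (Subset.refl _) (d.hζω (n + 1)).le)
  have hl : ∀ m, d.ζ m ≤ d.lam := fun m => ((d.hζω m).trans d.hωl).le
  have h5 := (jd_UU_iff d hL hjR (d.hζ (n + 1)) (hl _)).1 h3
  have h6 : ¬ Jd S univ (d.ζ n) (d.U j) := fun hc =>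
    h4 ((jd_UU_iff d hL hjR (d.hζ n) (hl _)).2 hc)
  by_contra hcon
  have hf : f n = false := by
    cases hfn : f n
    · rfl
    · exact absurd hfn hcon
  exact hjR ⟨n, hf, h5, h6⟩

/-- parameters exist -/
theorem exists_par (d : Dat S δ) (f : ℕ → Bool) {m : ℕ} (v : Fin m → M)
    (hP : ∀ x ∈ d.PX, x ∈ range v) (hQ : ∀ x ∈ d.QX, x ∈ range v)
    (hv : ∀ i, v i ∈ d.PX ∨ v i ∈ d.QX) :
    ∃ c : Fin m → Option ℕ × M, (∀ i, c i ∈ d.UN f) ∧
      d.Par f (range fun i => (c i, v i))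
        ((Finset.univ.filter fun i => v i ∈ d.PX).image c)
        ((Finset.univ.filter fun i => v i ∈ d.QX).image c) := by
  have hb1 : d.a₁ + Ordinal.omega0 < d.b := d.hb.add _ d.hab _ d.hb.om
  have hb2 : d.a₁ + Ordinal.omega0 + Ordinal.omega0 < d.b := d.hb.add _ hb1 _ d.hb.om
  have hb3 : d.a₁ + Ordinal.omega0 + Ordinal.omega0 + Ordinal.omega0 < d.b :=
    d.hb.add _ hb2 _ d.hb.om
  have hb4 : d.a₁ + Ordinal.omega0 + Ordinal.omega0 + Ordinal.omega0 + Ordinal.omega0 < d.b :=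
    d.hb.add _ hb3 _ d.hb.om
  obtain ⟨q, F, hqf, hF, hMt, hqF, hadm⟩ := (adm_empty (d := d) (f := f) hb4.le).back_fin
    (d.PX ∪ d.QX) (by
      rw [Finset.coe_union]
      exact union_subset d.hX.1 d.hX.2)
  have hc : ∀ i, ∃ c ∈ F, (c, v i) ∈ q := fun i => by
    refine hMt.2 (v i) ?_
    rw [Finset.mem_union]
    exact hv i
  choose c hcF hcq using hc
  refine ⟨c, fun i => hF (hcF i), ?_, ?_, ?_⟩
  · refine hadm.anti ?_
    rintro _ ⟨i, rfl⟩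
    exact Or.inr (hcq i)
  · refine ⟨fun x hx => ?_, fun y hy => ?_⟩
    · obtain ⟨i, hi, rfl⟩ := Finset.mem_image.1 hx
      exact ⟨v i, (Finset.mem_filter.1 hi).2, i, rfl⟩
    · obtain ⟨i, rfl⟩ := hP y hy
      exact ⟨c i, Finset.mem_image.2 ⟨i, Finset.mem_filter.2 ⟨Finset.mem_univ _, hy⟩, rfl⟩,
        i, rfl⟩
  · refine ⟨fun x hx => ?_, fun y hy => ?_⟩
    · obtain ⟨i, hi, rfl⟩ := Finset.mem_image.1 hx
      exact ⟨v i, (Finset.mem_filter.1 hi).2, i, rfl⟩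
    · obtain ⟨i, rfl⟩ := hQ y hy
      exact ⟨c i, Finset.mem_image.2 ⟨i, Finset.mem_filter.2 ⟨Finset.mem_univ _, hy⟩, rfl⟩,
        i, rfl⟩

end Dat

end Pool.Agent.CW

end
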