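import Pool.Agent.CW6.GC

/-!
# CW, module INV
-/

set_option autoImplicit false
set_option linter.unusedSectionVars false
set_option linter.unusedVariables false

namespace Pool.Agent.CW

open Set Pool.Agent.Helper5 Pool.Agent.Helper5.DU Pool.Agent.Helper6.Str
  Pool.Agent.Helper79.VC Pool.Agent.Helper97.VC Pool.Agent.Helper97.MD Pool.Agent.Helper6.VC
  Pool.Agent.Helper97.LO

open scoped Classical

/-- one extension by two finite sets, without finiteness of the map -/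
private theorem INV_forth {L : FirstOrder.Language.{0, 0}} [∀ n, IsEmpty (L.Functions n)]
    {M N : Type} {S : L.Structure M} {T : L.Structure N} {U : Set M} {V : Set N}
    {p : Set (M × N)} {P Q : Finset M} {γ : Ordinal.{0}}
    (h : BFR S T U V (γ + Ordinal.omega0) p) (hP : (P : Set M) ⊆ U) (hQ : (Q : Set M) ⊆ U) :
    ∃ (p' : Set (M × N)) (P'' Q'' : Finset N), p ⊆ p' ∧ (P'' : Set N) ⊆ V ∧
      (Q'' : Set N) ⊆ V ∧ Mt p' P P'' ∧ Mt p' Q Q'' ∧ BFR S T U V γ p' := by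
  have hPQ : ((P ∪ Q : Finset M) : Set M) ⊆ U := by
    rw [Finset.coe_union]
    exact union_subset hP hQ
  obtain ⟨q, F', _, hF'V, hm, _, hb⟩ := forth_fin h (P ∪ Q) hPQ
  obtain ⟨P'', hP'', hmP⟩ := hm.restrict (P := P) Finset.subset_union_left
  obtain ⟨Q'', hQ'', hmQ⟩ := hm.restrict (P := Q) Finset.subset_union_right
  exact ⟨p ∪ q, P'', Q'', subset_union_left, fun x hx => hF'V (hP'' hx),
    fun x hx => hF'V (hQ'' hx), hmP.mono subset_union_right, hmQ.mono subset_union_right, hb⟩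

namespace Dat

variable {L : FirstOrder.Language.{0, 0}} [∀ n, IsEmpty (L.Functions n)] {M : Type}
  {S : L.Structure M} {δ : Ordinal.{0}} {d : Dat S δ} {f g : ℕ → Bool} {n : ℕ}
  {r : Set ((Option ℕ × M) × (Option ℕ × M))} {CP CQ CP' CQ' : Finset (Option ℕ × M)}

private theorem INV_om (d : Dat S δ) : Ordinal.omega0 + 1 ≤ d.lam := by
  have h1 : Ordinal.omega0 + 1 < d.lam :=
    d.hlam.add _ d.hlam.om _ (lt_trans Ordinal.one_lt_omega0 d.hlam.om)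
  exact h1.le

private theorem INV_a (d : Dat S δ) : d.a₁ ≤ d.lam := by
  obtain ⟨-, h1, h2, h3, h4, h5, -, -⟩ := d.ords
  exact (h1.trans (h2.trans (h3.trans (h4.trans h5)))).le

private theorem INV_nice (hL : Ar2 L) {P Q P' Q' : Finset (Option ℕ × M)}
    (h : BFR d.TN d.TN (d.UN f) (d.UN g) d.lam r)
    (hCP : Mt r CP CP') (hCQ : Mt r CQ CQ') (hP : Mt r P P') (hQ : Mt r Q Q')
    (hCP' : (CP' : Set (Option ℕ × M)) ⊆ d.UN g)
    (hP' : (P' : Set (Option ℕ × M)) ⊆ d.UN g) (hQ' : (Q' : Set (Option ℕ × M)) ⊆ d.UN g)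
    (hn : d.Nice f CP CQ P Q) : d.Nice g CP' CQ' P' Q' := by
  have h' : BFR d.TN d.TN (d.UN f) (d.UN g) (Ordinal.omega0 + 1) r := h.mono (INV_om d)
  exact ⟨(ok_iff h' hP hQ hn.ok.left hn.ok.right hP' hQ').mp hn.ok,
    (bs_subset_iff h' hP hQ hCP hCQ hn.ok.left hP').mp hn.sub,
    (jd_bs_iff hL d.hlam h hP hQ hn.ok.left hP').mp hn.lam,
    (rho_of_atEq h.atEq hP hQ).symm.trans hn.rho⟩

private theorem INV_cl (hL : Ar2 L) {P Q P' Q' : Finset (Option ℕ × M)}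
    {x x' : Option ℕ × M}
    (h : BFR d.TN d.TN (d.UN f) (d.UN g) (d.lam + Ordinal.omega0) r) (hx : (x, x') ∈ r)
    (hCP : Mt r CP CP') (hCQ : Mt r CQ CQ') (hP : Mt r P P') (hQ : Mt r Q Q')
    (hCP' : (CP' : Set (Option ℕ × M)) ⊆ d.UN g)
    (hPf : (P : Set (Option ℕ × M)) ⊆ d.UN f)
    (hP' : (P' : Set (Option ℕ × M)) ⊆ d.UN g)
    (hx' : x' ∈ d.UN g) (hc : x ∈ d.cl f CP CQ P Q) : x' ∈ d.cl g CP' CQ' P' Q' := by
  obtain ⟨P₁, Q₁, hn, hs, hm⟩ := hc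
  obtain ⟨r', P₁', Q₁', hrr, hP₁', hQ₁', hmP, hmQ, hb⟩ := INV_forth h hn.ok.left hn.ok.right
  have h' : BFR d.TN d.TN (d.UN f) (d.UN g) (Ordinal.omega0 + 1) r' := hb.mono (INV_om d)
  refine ⟨P₁', Q₁', INV_nice hL hb (hCP.mono hrr) (hCQ.mono hrr) hmP hmQ hCP' hP₁' hQ₁' hn,
    (bs_subset_iff h' (hP.mono hrr) (hQ.mono hrr) hmP hmQ hPf hP').mp hs, ?_⟩
  have h3 : BFR d.TN d.TN (d.UN f) (d.UN g) Ordinal.omega0 (insert (x, x') r') := by
    rw [insert_eq_of_mem (hrr hx)]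
    exact h'.mono le_self_add
  exact (mem_bs_iff (bs_subset hn.ok.left hm) hx' h3 hmP hmQ).mp hm

private theorem INV_clU {P Q : Finset (Option ℕ × M)} :
    d.cl f CP CQ P Q ⊆ d.UN f := by
  rintro x ⟨P₁, Q₁, hn, hs, hm⟩
  exact bs_subset hn.ok.left hm

/-- the decoding property is invariant -/
theorem qq_congr (hL : Ar2 L)
    (h : BFR d.TN d.TN (d.UN f) (d.UN g)
      (d.lam + Ordinal.omega0 + Ordinal.omega0 + Ordinal.omega0) r)
    (hP : Mt r CP CP') (hQ : Mt r CQ CQ') (hCP : (CP : Set (Option ℕ × M)) ⊆ d.UN f)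
    (hCP' : (CP' : Set (Option ℕ × M)) ⊆ d.UN g) (hq : d.QQ f CP CQ n) :
    d.QQ g CP' CQ' n := by
  obtain ⟨P, Q, hb, hj, hnj⟩ := hq
  have hn := hb.nice
  obtain ⟨r', P', Q', hrr, hP', hQ', hmP, hmQ, hb'⟩ := INV_forth h hn.ok.left hn.ok.right
  have hlamB : BFR d.TN d.TN (d.UN f) (d.UN g) d.lam r' :=
    hb'.mono (le_self_add.trans le_self_add)
  have hCPr := hP.mono hrr
  have hCQr := hQ.mono hrr
  have H : ∀ x ∈ d.UN f, ∀ x' ∈ d.UN g,
      BFR d.TN d.TN (d.UN f) (d.UN g) (d.lam + Ordinal.omega0) (insert (x, x') r') →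
      (x ∈ d.cl f CP CQ P Q ↔ x' ∈ d.cl g CP' CQ' P' Q') := by
    intro x hx x' hx' hbx
    have hsub : r' ⊆ insert (x, x') r' := subset_insert _ _
    constructor
    · exact INV_cl hL hbx (mem_insert _ _) (hCPr.mono hsub) (hCQr.mono hsub) (hmP.mono hsub)
        (hmQ.mono hsub) hCP' hn.ok.left hP' hx'
    · exact INV_cl hL hbx.swap (mem_insert _ _) (mt_swap (hCPr.mono hsub))
        (mt_swap (hCQr.mono hsub)) (mt_swap (hmP.mono hsub)) (mt_swap (hmQ.mono hsub))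
        hCP hP' hn.ok.left hx
  have hζ : ∀ m, d.ζ m ≤ d.lam + Ordinal.omega0 := fun m =>
    ((d.hζω m).trans d.hωl).le.trans le_self_add
  have key : ∀ m, Jd d.TN (d.UN f) (d.ζ m) (d.cl f CP CQ P Q) ↔
      Jd d.TN (d.UN g) (d.ζ m) (d.cl g CP' CQ' P' Q') := fun m =>
    jd_iff' hL (d.hζ m) INV_clU INV_clU (hζ m) H hb'
  refine ⟨P', Q', ⟨INV_nice hL hlamB hCPr hCQr hmP hmQ hCP' hP' hQ' hn, fun hc => ?_⟩,
    (key _).mp hj, fun hc => hnj ((key _).mpr hc)⟩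
  exact hb.not_small ((jd_bs_iff hL d.cls₁.gd (hlamB.mono (INV_a d)) hmP hmQ hn.ok.left
    hP').mpr hc)

end Dat

end Pool.Agent.CW
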