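import Pool.Agent.CW6.GD

/-!
# CW, module QA
-/

set_option autoImplicit false
set_option linter.unusedSectionVars false
set_option linter.unusedVariables false

namespace Pool.Agent.CW

open Set Pool.Agent.Helper5 Pool.Agent.Helper5.DU Pool.Agent.Helper6.Str
  Pool.Agent.Helper79.VC Pool.Agent.Helper97.VC Pool.Agent.Helper97.MD Pool.Agent.Helper6.VC
  Pool.Agent.Helper97.LO

open scoped Classical

namespace Dat

variable {L : FirstOrder.Language.{0, 0}} [∀ n, IsEmpty (L.Functions n)] {M : Type}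
  {S : L.Structure M} {δ : Ordinal.{0}} {d : Dat S δ} {f : ℕ → Bool} {n : ℕ}
  {p₀ : Set ((Option ℕ × M) × M)} {CP CQ : Finset (Option ℕ × M)}

/-- a set which is not covered contains a basic set of large level -/
private theorem QA_pick {N : Type} {T : L.Structure N} {U Z : Set N} {P Q : Finset N}
    {ζ : Ordinal.{0}} (hZU : Z ⊆ U) (hR : Refs (bt T) U Z P Q)
    (hn : ¬ CovS T U Z (max 1 (rho (bt T) P Q)) ζ) :
    ∃ P₁ : Finset N, Ok (bt T) U P₁ Q ∧ Bs (bt T) U P₁ Q ⊆ Z ∧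
      rho (bt T) P₁ Q = rho (bt T) P Q ∧ ¬ Lv T U (Bs (bt T) U P₁ Q) ζ := by
  by_contra hcon
  push Not at hcon
  refine hn (covS_of_refs hZU hR (le_max_right _ _)
    (lt_of_lt_of_le one_pos (le_max_left _ _)) fun F hF => ?_)
  obtain ⟨hOk, hsub, hrho, _, _⟩ := hR.bs hZU hF
  exact hcon _ hOk hsub hrho

private theorem QA_lt_lam (d : Dat S δ) : d.b < d.lam ∧ d.a₁ < d.lam ∧ ∀ n, d.ζ n < d.lam ∧
    d.b < d.ζ n ∧ d.a₁ < d.ζ n := by
  obtain ⟨h1, h2, h3, h4, h5, h6, h7, h8⟩ := d.ords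
  have hb : d.b < d.lam := h3.trans (h4.trans (h5.trans h6))
  refine ⟨hb, h2.trans hb, fun n => ?_⟩
  have h0 : d.ζ 0 ≤ d.ζ n := d.zeta_mono (Nat.zero_le n)
  have hbn : d.b < d.ζ n := (h3.trans h4).trans_le h0
  exact ⟨(d.hζω n).trans h6, hbn, h2.trans hbn⟩

/-- small basic sets inside a core have level `a₁` -/
private theorem QA_lv (hL : Ar2 L) (hPar : d.Par f p₀ CP CQ) {k : ℕ}
    {P Q : Finset (Option ℕ × M)} (hOk : Ok (bt d.TN) (d.UN f) P Q)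
    (hsub : Bs (bt d.TN) (d.UN f) P Q ⊆ d.UU f k)
    (hJ : Jd d.TN (d.UN f) d.a₁ (Bs (bt d.TN) (d.UN f) P Q)) :
    Lv d.TN (d.UN f) (Bs (bt d.TN) (d.UN f) P Q) d.a₁ := by
  obtain ⟨h1, h2, h3, h4, h5, h6, h7, h8⟩ := d.ords
  obtain ⟨hbl, hal, hζl⟩ := QA_lt_lam d
  obtain ⟨p', P', Q', hpp, hadm, hP, hQ, hPB, hQB⟩ := hPar.adm.ext2 P Q hOk.left hOk.right
  have hle : d.a₁ ≤ d.a₁ + Ordinal.omega0 + Ordinal.omega0 := by
    rw [add_assoc]; exact le_self_add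
  have hadm1 : d.Adm f d.a₁ p' := hadm.mono hle
  have hw : Ordinal.omega0 + 1 ≤ d.a₁ :=
    (h8.add _ h8.om _ (Ordinal.one_lt_omega0.trans h8.om)).le
  have hbfr : BFR d.TN S (d.UN f) univ d.a₁ p' := hadm1.bfr_univ hL hal
  have hW := lemma_W hL hPar (hadm1.mono hw) hpp hP hQ hOk
    (hsub.trans (UU_sub_X hL hPar k)) ((d.jd_UU_lam hL f k).mono hsub le_rfl)
  have hJ' : Jd S univ d.a₁ (Bs (bt S) univ P' Q') :=
    (jd_bs_iff hL h8 hbfr hP hQ hOk.left (Set.subset_univ _)).1 hJ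
  obtain ⟨ζ', hζ', hlv⟩ := d.cls₁.lv P' Q' hW.1 hJ'
  have hup : up ζ' ≤ d.a₁ := by
    have := gd_up h8 hζ'
    refine le_trans ?_ this.le
    rw [add_assoc]; exact le_self_add
  have := (lv_iff hL (hζ'.trans h8.lt) (hbfr.mono hup) hOk hW.1 hP hQ).2 hlv
  exact this.mono hζ'.le

/-- (B3) -/
theorem qq_of_true (hL : Ar2 L) (hPar : d.Par f p₀ CP CQ) (hf : f n = true) :
    d.QQ f CP CQ n := by
  obtain ⟨h1, h2, h3, h4, h5, h6, h7, h8⟩ := d.ords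
  obtain ⟨hbl, hal, hζl⟩ := QA_lt_lam d
  obtain ⟨k, hk⟩ := d.idx n
  have hkx : d.Ix n k := hk
  have hkR : k ∉ d.R f := by
    rintro ⟨m, hm, hmk⟩
    have := d.ix_unique hmk hkx
    subst this
    rw [hf] at hm
    exact Bool.noConfusion hm
  have hUsub : d.UU f k ⊆ d.UN f := fun x hx => hx.1
  have hrk := d.rk_UU hL f k
  have hne : rk (bt d.TN) (d.UN f) (d.UU f k) ≠ ⊤ :=
    ne_top_of_le_ne_top (ENat.natCast_ne_top _) hrk
  obtain ⟨P, Q, hR⟩ := exists_refs hne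
  have hPQ : (rho (bt d.TN) P Q : ℕ∞) ≤ d.t := hR.eq ▸ hrk
  -- not all the basic sets are small
  have hex : ∃ P₁ : Finset (Option ℕ × M), Ok (bt d.TN) (d.UN f) P₁ Q ∧
      Bs (bt d.TN) (d.UN f) P₁ Q ⊆ d.UU f k ∧
      rho (bt d.TN) P₁ Q = rho (bt d.TN) P Q ∧
      ¬ Lv d.TN (d.UN f) (Bs (bt d.TN) (d.UN f) P₁ Q) d.a₁ := by
    refine QA_pick hUsub hR fun hcov => ?_
    have hJb : Jd d.TN (d.UN f) d.b (d.UU f k) := jd_of_covS hcov h2
    have hJS : Jd S univ d.b (d.U k) := (d.jd_UU_iff hL hkR d.hb hbl.le).1 hJb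
    exact hk.2 (hJS.mono subset_rfl (hζl n).2.1.le)
  obtain ⟨P₁, hOk, hsub, hrho, hnl⟩ := hex
  have hFn : ¬ Jd d.TN (d.UN f) d.a₁ (Bs (bt d.TN) (d.UN f) P₁ Q) :=
    fun hJ => hnl (QA_lv hL hPar hOk hsub hJ)
  have hsubX : Bs (bt d.TN) (d.UN f) P₁ Q ⊆ Bs (bt d.TN) (d.UN f) CP CQ :=
    hsub.trans (UU_sub_X hL hPar k)
  have hlam : Jd d.TN (d.UN f) d.lam (Bs (bt d.TN) (d.UN f) P₁ Q) :=
    (d.jd_UU_lam hL f k).mono hsub le_rfl
  have hrt : rho (bt d.TN) P₁ Q = d.t := by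
    refine le_antisymm ?_ ?_
    · rw [hrho]; exact_mod_cast hPQ
    · have := le_rk_N hL hPar hsubX hlam hFn
      rw [rk_bs hOk] at this
      exact_mod_cast this
  have hBig : d.BigN f CP CQ P₁ Q := ⟨⟨hOk, hsubX, hlam, hrt⟩, hFn⟩
  obtain ⟨j, hj, hjμ⟩ := exists_core hL hPar hBig
  have hjk : j = k := by
    by_contra hne'
    exact hj ((d.UU_disj (fun h => hne' h.symm)).mono_left hsub)
  subst hjk
  refine ⟨P₁, Q, hBig, ?_, ?_⟩
  · rw [hjμ _ (hζl (n + 1)).2.2.le, d.jd_UU_iff hL hkR (d.hζ _) (hζl (n + 1)).1.le]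
    exact hk.1
  · rw [hjμ _ (hζl n).2.2.le, d.jd_UU_iff hL hkR (d.hζ _) (hζl n).1.le]
    exact hk.2

end Dat

end Pool.Agent.CW
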